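import Pool.Agent.Lib.MP_4d246d_lc.EB.Statement

/-!
# Minimum cost flow programs

A digraph with `N` nodes and `M` arcs without loops (parallel arcs are allowed). Maximise a linear
function over all flows `x`: outflow minus inflow at the node `v` is `b_v`, and
`0 ≤ x_a ≤ u_a` for each arc `a`.
-/

namespace Pool.Agent.Simplex.Flw

open Pool.Agent.Lib.PolyTime Pool.Agent.Simplex.EB Turing

/-- The entry of the node-arc incidence matrix. -/
def inc {N M : ℕ} (tail head : Fin M → Fin N) (v : Fin N) (a : Fin M) : ℚ :=
  (if tail a = v then 1 else 0) - (if head a = v then 1 else 0)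

/-- The matrix: the incidence matrix, its negative, and the identity. -/
def flowMat {N M : ℕ} (tail head : Fin M → Fin N) : Fin (N + N + M) → Fin M → ℚ :=
  Fin.addCases (Fin.addCases (fun v a => inc tail head v a) (fun v a => - inc tail head v a))
    (fun a' a => if a' = a then 1 else 0)

/-- The flow program: maximise `∑ cost_a x_a` subject to outflow minus inflow `= b_v` at each node
`v` (two inequalities), `0 ≤ x_a ≤ u_a`. -/
noncomputable def flowProg {N M : ℕ} (tail head : Fin M → Fin N) (b : Fin N → ℝ)
    (u cost : Fin M → ℝ) : RLP (N + N + M) M where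
  A := flowMat tail head
  b := Fin.addCases (Fin.addCases b (fun v => - b v)) u
  c := cost

/-- The flow program with rational data. -/
def flowProgQ {N M : ℕ} (tail head : Fin M → Fin N) (b : Fin N → ℚ) (u cost : Fin M → ℚ) :
    QLP (N + N + M) M where
  A := flowMat tail head
  b := Fin.addCases (Fin.addCases b (fun v => - b v)) u
  c := cost

/-- The input is a flow program for a digraph without loops. -/
def IsFlow (I : Input) : Prop :=
  ∃ (N M : ℕ) (tail head : Fin M → Fin N) (b : Fin N → ℚ) (u cost v : Fin M → ℚ)
    (hv : (flowProgQ tail head b u cost).Vertex (toReal v)),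
    (∀ a, tail a ≠ head a) ∧ I = ⟨_, _, flowProgQ tail head b u cost, v, hv⟩

end Pool.Agent.Simplex.Flw
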