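import Pool.Agent.Lib.MP_4d246d_lc.Flw.Red
import Pool.Agent.Lib.MP_4d246d_lc.EB.SlimEngine
import Pool.Agent.Lib.MP_4d246d_lc.EB.TinyPoly
import Pool.Agent.Lib.MP_4d246d_lc.EB.Two

/-!
# The reduction of flow programs takes polynomial time; flow programs are recognised
(pattern: `EB/OnePoly.lean`, `EB/SlimEngine.lean`, `EB/TwoEngine.lean`)
-/

namespace Pool.Agent.Simplex.Flw

open Pool.Agent.Lib.PolyTime Pool.Agent.Simplex.QP Pool.Agent.Simplex.EB Turing

theorem polyF_gN : PolyF gN := by
  refine ((polyF_data.snd.fst.length.natSub polyF_data.fst).natDiv (PolyF.const 2)).congr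
    fun I => ?_
  show ((List.ofFn fun i => List.ofFn (I.lp.A i)).length - I.n) / 2 = (I.m - I.n) / 2
  rw [List.length_ofFn]

section

variable {α : Type*} [TEnc α] {I : α → Input} {a v : α → ℕ}

private theorem polyF_gA (hI : PolyF I) (hv : PolyF v) (ha : PolyF a) :
    PolyF (fun x => gA (I x) (v x) (a x)) :=
  ((polyF_data.comp hI).snd.fst.getDL hv (PolyF.const [])).getDL ha (PolyF.const 0)

private theorem polyF_find (hI : PolyF I) (ha : PolyF a) (q : ℚ) :
    PolyF (fun x => ((List.range (gN (I x))).find? fun v =>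
      decide (gA (I x) v (a x) = q)).getD 0) := by
  refine ((polyF_gN.comp hI).range.find? (p := fun x v => decide (gA (I x) v (a x) = q))
    ?_).getD (PolyF.const 0)
  exact (polyF_gA (hI.comp PolyF.fst') PolyF.snd' (ha.comp PolyF.fst')).eq (PolyF.const q)

theorem polyF_gtl (hI : PolyF I) (ha : PolyF a) : PolyF (fun x => gtl (I x) (a x)) :=
  polyF_find hI ha 1

theorem polyF_ghd (hI : PolyF I) (ha : PolyF a) : PolyF (fun x => ghd (I x) (a x)) :=
  polyF_find hI ha (-1)

theorem polyF_gb (hI : PolyF I) (ha : PolyF a) : PolyF (fun x => gb (I x) (a x)) :=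
  (polyF_data.comp hI).snd.snd.fst.getDL ha (PolyF.const 0)

theorem polyF_gu (hI : PolyF I) (ha : PolyF a) : PolyF (fun x => gu (I x) (a x)) :=
  (polyF_data.comp hI).snd.snd.fst.getDL
    (((PolyF.const 2).natMul (polyF_gN.comp hI)).natAdd ha) (PolyF.const 0)

theorem polyF_gc (hI : PolyF I) (ha : PolyF a) : PolyF (fun x => gc (I x) (a x)) :=
  (polyF_data.comp hI).snd.snd.snd.fst.getDL ha (PolyF.const 0)

theorem polyF_gv (hI : PolyF I) (ha : PolyF a) : PolyF (fun x => gv (I x) (a x)) :=
  (polyF_data.comp hI).snd.snd.snd.snd.getDL ha (PolyF.const 0)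

private theorem polyF_gn (hI : PolyF I) : PolyF (fun x => (I x).n) :=
  (polyF_data.comp hI).fst

private theorem polyF_fa (hI : PolyF I) (ha : PolyF a) :
    PolyF (fun x => fa (gN (I x)) (a x)) :=
  (ha.natDiv (PolyF.const 2)).natDiv (polyF_gN.comp hI)

private theorem polyF_fv (hI : PolyF I) (ha : PolyF a) :
    PolyF (fun x => fv (gN (I x)) (a x)) :=
  (ha.natDiv (PolyF.const 2)).natMod (polyF_gN.comp hI)

private theorem fent_eq (N : ℕ) (tl hd : ℕ → ℕ) (u x : ℕ → ℚ) (q : ℕ) :
    fent N tl hd u x q =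
      if fv N q = hd (fa N q) then
        (if q % 2 = 0 then x (fa N q) else u (fa N q) - x (fa N q))
      else if fv N q = tl (fa N q) then
        (if q % 2 = 0 then u (fa N q) - x (fa N q) else x (fa N q))
      else 0 := by
  unfold fent fcoef foff
  split_ifs <;> simp <;> ring

private theorem polyF_gV0 (hI : PolyF I) (ha : PolyF a) :
    PolyF (fun x => fent (gN (I x)) (gtl (I x)) (ghd (I x)) (gu (I x)) (gv (I x)) (a x)) := by
  have hfa := polyF_fa hI ha
  have hfv := polyF_fv hI ha
  have hx := polyF_gv hI hfa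
  have hu := polyF_gu hI hfa
  have h2 := (ha.natMod (PolyF.const 2)).natEq (PolyF.const 0)
  refine (PolyF.ite (hfv.natEq (polyF_ghd hI hfa)) (PolyF.ite h2 hx (hu.ratSub hx))
    (PolyF.ite (hfv.natEq (polyF_gtl hI hfa)) (PolyF.ite h2 (hu.ratSub hx) hx)
      (PolyF.const 0))).congr fun x => ?_
  exact (fent_eq _ _ _ _ _ _).symm

private theorem sum_range_eq (M : ℕ) (f : ℕ → ℚ) :
    ∑ a ∈ Finset.range M, f a = ((List.range M).map f).sum :=
  Multiset.sum_coe _

private theorem polyF_sumIf {d : Input → ℕ → ℕ} {f : Input → ℕ → ℚ}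
    (hd : PolyF (fun p : Input × ℕ => d p.1 p.2)) (hf : PolyF (fun p : Input × ℕ => f p.1 p.2))
    (hI : PolyF I) (ha : PolyF a) :
    PolyF (fun x => ∑ j ∈ Finset.range (I x).n, if d (I x) j = a x then f (I x) j else 0) := by
  refine (polyF_ratSum ((polyF_gn hI).range.map (h := fun x j =>
    if d (I x) j = a x then f (I x) j else 0) ?_)).congr fun x => (sum_range_eq _ _).symm
  have h1 : PolyF (fun p : α × ℕ => (I p.1, p.2)) := (hI.comp PolyF.fst').pair PolyF.snd'
  exact PolyF.ite ((hd.comp h1).natEq (ha.comp PolyF.fst')) (hf.comp h1) (PolyF.const 0)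

private theorem polyF_gline (hI : PolyF I) (ha : PolyF a) :
    PolyF (fun x => fline (gN (I x)) (I x).n (gtl (I x)) (ghd (I x)) (gb (I x)) (gu (I x))
      (a x)) := by
  have hN : PolyF (fun x => gN (I x)) := polyF_gN.comp hI
  have hMN : PolyF (fun x => (I x).n * gN (I x)) := (polyF_gn hI).natMul hN
  have h2N : PolyF (fun x => (I x).n * gN (I x) + 2 * gN (I x)) :=
    hMN.natAdd ((PolyF.const 2).natMul hN)
  have hdiv : PolyF (fun x => a x / gN (I x)) := ha.natDiv hN
  have hmod : PolyF (fun x => a x % gN (I x)) := ha.natMod hN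
  have hs : PolyF (fun x => a x - (I x).n * gN (I x)) := ha.natSub hMN
  have hs2 : PolyF (fun x => (a x - (I x).n * gN (I x)) / 2) := hs.natDiv (PolyF.const 2)
  have hst : PolyF (fun x => (a x - (I x).n * gN (I x) - 2 * gN (I x)) / 2) :=
    (hs.natSub ((PolyF.const 2).natMul hN)).natDiv (PolyF.const 2)
  have ht : PolyF (fun p : Input × ℕ => gtl p.1 p.2) := polyF_gtl PolyF.fst' PolyF.snd'
  have hh : PolyF (fun p : Input × ℕ => ghd p.1 p.2) := polyF_ghd PolyF.fst' PolyF.snd'
  have hu : PolyF (fun p : Input × ℕ => gu p.1 p.2) := polyF_gu PolyF.fst' PolyF.snd'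
  unfold fline
  exact PolyF.ite (ha.natLt hMN)
    (PolyF.ite ((hmod.natEq (polyF_gtl hI hdiv)).decide_or (hmod.natEq (polyF_ghd hI hdiv)))
      (polyF_gu hI hdiv) (PolyF.const 0))
    (PolyF.ite (ha.natLt h2N)
      (PolyF.ite ((hs.natMod (PolyF.const 2)).natEq (PolyF.const 0))
        ((polyF_sumIf ht hu hI hs2).ratSub (polyF_gb hI hs2))
        ((polyF_sumIf hh hu hI hs2).ratAdd (polyF_gb hI hs2)))
      (polyF_gu hI hst))

private theorem polyF_gcost (hI : PolyF I) (ha : PolyF a) :
    PolyF (fun x => fcost (gN (I x)) (ghd (I x)) (gc (I x)) (a x)) := by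
  have hfa := polyF_fa hI ha
  have hfv := polyF_fv hI ha
  unfold fcost
  exact PolyF.ite ((hfv.natEq (polyF_ghd hI hfa)).decide_and
    ((ha.natMod (PolyF.const 2)).natEq (PolyF.const 0))) (polyF_gc hI hfa) (PolyF.const 0)

end

/-- the right-hand sides of the table -/
private def flB (I : Input) : List ℚ :=
  (List.range (lines2 I.n (gN I) + lines2 I.n (gN I))).map fun p =>
    if p < lines2 I.n (gN I) then fline (gN I) I.n (gtl I) (ghd I) (gb I) (gu I) p
    else - fline (gN I) I.n (gtl I) (ghd I) (gb I) (gu I) (p - lines2 I.n (gN I))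

/-- the objective of the table -/
private def flC (I : Input) : List ℚ :=
  (List.range (2 * (I.n * gN I))).map fun q => fcost (gN I) (ghd I) (gc I) q

/-- the vertex of the table -/
private def flV (I : Input) : List ℚ :=
  (List.range (2 * (I.n * gN I))).map fun q => fent (gN I) (gtl I) (ghd I) (gu I) (gv I) q

private theorem ofFn_gTab_b (I : Input) : List.ofFn (gTab I).b = flB I := by
  unfold flB
  rw [← ofFn_range]
  refine congrArg List.ofFn (funext fun p => ?_)
  unfold gTab transportQ2
  dsimp only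
  induction p using Fin.addCases with
  | left p =>
    rw [Fin.addCases_left, Fin.val_castAdd, if_pos p.2]
  | right p =>
    have h1 : ¬ (lines2 I.n (gN I) + (p : ℕ) < lines2 I.n (gN I)) := by omega
    rw [Fin.addCases_right, Fin.val_natAdd, if_neg h1, Nat.add_sub_cancel_left]

private theorem ofFn_gTab_c (I : Input) : List.ofFn (gTab I).c = flC I := by
  unfold flC
  rw [← ofFn_range]
  rfl

private theorem ofFn_gV (I : Input) : List.ofFn (gV I) = flV I := by
  unfold flV
  rw [← ofFn_range]
  rfl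

private theorem redF_data (I : {I : Input // IsFlow I}) : (redF I).data =
    ((tmat2 I.1.n (gN I.1)).1, (tmat2 I.1.n (gN I.1)).2, flB I.1, flC I.1, flV I.1) := by
  have h1 : (ofQ (gTab I.1)).mat = tmat2 I.1.n (gN I.1) := Two.matQ _ _
  show ((ofQ (gTab I.1)).mat.1, (ofQ (gTab I.1)).mat.2, List.ofFn (gTab I.1).b,
    List.ofFn (gTab I.1).c, List.ofFn (gV I.1)) = _
  rw [h1, ofFn_gTab_b, ofFn_gTab_c, ofFn_gV]

private theorem polyF_flB : PolyF flB := by
  have hn : PolyF (fun I : Input => I.n) := polyF_data.fst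
  have hL : PolyF (fun I : Input => lines2 I.n (gN I)) := Two.polyF_lines2 hn polyF_gN
  refine (hL.natAdd hL).range.map (h := fun I p =>
    if p < lines2 I.n (gN I) then fline (gN I) I.n (gtl I) (ghd I) (gb I) (gu I) p
    else - fline (gN I) I.n (gtl I) (ghd I) (gb I) (gu I) (p - lines2 I.n (gN I))) ?_
  have hL1 : PolyF (fun x : Input × ℕ => lines2 x.1.n (gN x.1)) := hL.comp PolyF.fst'
  exact PolyF.ite (PolyF.snd'.natLt hL1)
    (polyF_gline (I := fun x : Input × ℕ => x.1) (a := fun x => x.2) PolyF.fst' PolyF.snd')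
    (polyF_gline (I := fun x : Input × ℕ => x.1)
      (a := fun x => x.2 - lines2 x.1.n (gN x.1)) PolyF.fst' (PolyF.snd'.natSub hL1)).ratNeg

private theorem polyF_flC : PolyF flC := by
  have hn : PolyF (fun I : Input => I.n) := polyF_data.fst
  refine ((PolyF.const 2).natMul (hn.natMul polyF_gN)).range.map (h := fun I q =>
    fcost (gN I) (ghd I) (gc I) q) ?_
  exact polyF_gcost (I := fun x : Input × ℕ => x.1) (a := fun x => x.2) PolyF.fst' PolyF.snd'

private theorem polyF_flV : PolyF flV := by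
  have hn : PolyF (fun I : Input => I.n) := polyF_data.fst
  refine ((PolyF.const 2).natMul (hn.natMul polyF_gN)).range.map (h := fun I q =>
    fent (gN I) (gtl I) (ghd I) (gu I) (gv I) q) ?_
  exact polyF_gV0 (I := fun x : Input × ℕ => x.1) (a := fun x => x.2) PolyF.fst' PolyF.snd'

private theorem polyF_sub0 : PolyF (fun I : {I : Input // IsFlow I} => I.1) :=
  (PolyF.id (α := Input)).of_enc (fun x => x.1) (fun _ => rfl) fun _ => rfl

/-- the table input is computed in polynomial time -/
theorem polyF_redF : PolyF redF := by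
  have hn : PolyF (fun I : Input => I.n) := polyF_data.fst
  have ht : PolyF (fun I : Input => tmat2 I.n (gN I)) := Two.polyF_tmat2 hn polyF_gN
  have h1 : PolyF (fun I : {I : Input // IsFlow I} => (redF I).data) :=
    ((ht.fst.pair (ht.snd.pair (polyF_flB.pair (polyF_flC.pair polyF_flV)))).comp
      polyF_sub0).congr fun I => (redF_data I).symm
  exact h1.of_enc (fun x => x) (fun _ => rfl) fun _ => rfl

/-- the way back on lists -/
def backFL (I : {I : Input // IsFlow I}) (w : List ℚ) : List ℚ :=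
  (List.range I.1.n).map fun j => w.getD (2 * (j * gN I.1 + ghd I.1 j)) 0

theorem ofFn_backF (I : {I : Input // IsFlow I}) (w : Fin (redF I).n → ℚ) :
    List.ofFn (backF I w) = backFL I (List.ofFn w) := by
  unfold backFL
  rw [← ofFn_range]
  refine congrArg List.ofFn (funext fun j => ?_)
  unfold backF nx
  split_ifs with h
  · rw [List.getD_eq_getElem _ _ (by rw [List.length_ofFn]; exact h), List.getElem_ofFn]
  · rw [List.getD_eq_default _ _ (by rw [List.length_ofFn]; exact not_lt.1 h)]

theorem polyF_backFL :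
    PolyF (fun x : {I : Input // IsFlow I} × List ℚ => backFL x.1 x.2) := by
  have hI : PolyF (fun x : {I : Input // IsFlow I} × List ℚ => x.1.1) :=
    polyF_sub0.comp PolyF.fst'
  refine (polyF_gn hI).range.map (h := fun (x : {I : Input // IsFlow I} × List ℚ) j =>
    x.2.getD (2 * (j * gN x.1.1 + ghd x.1.1 j)) 0) ?_
  have h1 : PolyF (fun p : ({I : Input // IsFlow I} × List ℚ) × ℕ => p.1.1.1) :=
    hI.comp PolyF.fst'
  have hw : PolyF (fun p : ({I : Input // IsFlow I} × List ℚ) × ℕ => p.1.2) :=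
    PolyF.snd'.comp PolyF.fst'
  exact hw.getDL ((PolyF.const 2).natMul ((PolyF.snd'.natMul (polyF_gN.comp h1)).natAdd
    (polyF_ghd h1 PolyF.snd'))) (PolyF.const 0)

end Pool.Agent.Simplex.Flw
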