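import Pool.Agent.Lib.MP_4d246d_lc.Flw.Red
import Pool.Agent.Lib.MP_4d246d_lc.EB.SlimEngine

/-!
# Flow programs are recognised in polynomial time
(pattern: `EB/SlimEngine.lean`: `isTr`, `isTr_of`, `of_isTr`, `polyF_isTr`)

Test on the data: the number of rows is `2 N + n` with `N = gN I`; for each arc `a < n`:
`gtl I a ≠ ghd I a` and both are `< N`; the entries of the first `N` rows are
`(if gtl a = v then 1 else 0) - (if ghd a = v then 1 else 0)`, those of the next `N` rows are the
negatives, and the last rows are the identity; the right hand sides `N, …, 2 N - 1` are the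
negatives of the first `N`.
-/

namespace Pool.Agent.Simplex.Flw

open Pool.Agent.Lib.PolyTime Pool.Agent.Simplex.QP Pool.Agent.Simplex.EB Turing

/-- the entry of the matrix of a flow program -/
def gEnt (N : ℕ) (tl hd : ℕ → ℕ) (p a : ℕ) : ℚ :=
  if p < N then (if tl a = p then 1 else 0) - (if hd a = p then 1 else 0)
  else if p < 2 * N then - ((if tl a = p - N then 1 else 0) - (if hd a = p - N then 1 else 0))
  else if p - 2 * N = a then 1 else 0

/-- the test -/
def isFl (I : Input) : Bool :=
  decide (I.m = 2 * gN I + I.n) &&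
  ((List.range I.n).all fun a =>
    decide (gtl I a < gN I) && decide (ghd I a < gN I) && decide (gtl I a ≠ ghd I a)) &&
  ((List.range I.m).all fun p => (List.range I.n).all fun a =>
    decide (gA I p a = gEnt (gN I) (gtl I) (ghd I) p a)) &&
  ((List.range (gN I)).all fun v => decide (gb I (gN I + v) = - gb I v))

/-! ### The entries -/

private theorem te_getD {α : Type*} {k : ℕ} (f : Fin k → α) (d : α) {i : ℕ} (h : i < k) :
    (List.ofFn f).getD i d = f ⟨i, h⟩ := by
  rw [List.getD_eq_getElem _ _ (by rw [List.length_ofFn]; exact h), List.getElem_ofFn]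

private theorem te_gA (I : Input) {p a : ℕ} (hp : p < I.m) (ha : a < I.n) :
    gA I p a = I.lp.A ⟨p, hp⟩ ⟨a, ha⟩ := by
  unfold gA Input.data
  dsimp only
  rw [te_getD _ _ hp, te_getD _ _ ha]

private theorem te_gb (I : Input) {p : ℕ} (hp : p < I.m) : gb I p = I.lp.b ⟨p, hp⟩ := by
  unfold gb Input.data
  dsimp only
  rw [te_getD _ _ hp]

private theorem te_ent {N n : ℕ} (tail head : Fin n → Fin N) {tl hd : ℕ → ℕ}
    (h1 : ∀ a : Fin n, tl a = tail a) (h2 : ∀ a : Fin n, hd a = head a)
    (p : Fin (N + N + n)) (a : Fin n) :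
    flowMat tail head p a = gEnt N tl hd p a := by
  have h3 : ∀ w : Fin N, inc tail head w a =
      (if tl a = w then 1 else 0) - (if hd a = w then 1 else 0) := by
    intro w
    unfold inc
    rw [h1, h2]
    simp only [Fin.ext_iff]
  unfold flowMat gEnt
  induction p using Fin.addCases with
  | left p =>
    rw [Fin.addCases_left]
    induction p using Fin.addCases with
    | left w =>
      rw [Fin.addCases_left, Fin.val_castAdd, Fin.val_castAdd, if_pos w.2]
      exact h3 w
    | right w =>
      have e1 : ¬ (N + (w : ℕ) < N) := by omega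
      have e2 : N + (w : ℕ) < 2 * N := by
        have := w.2
        omega
      rw [Fin.addCases_right, Fin.val_castAdd, Fin.val_natAdd, if_neg e1, if_pos e2,
        Nat.add_sub_cancel_left]
      exact congrArg Neg.neg (h3 w)
  | right a' =>
    have e1 : ¬ (N + N + (a' : ℕ) < N) := by omega
    have e2 : ¬ (N + N + (a' : ℕ) < 2 * N) := by omega
    have e3 : N + N + (a' : ℕ) - 2 * N = a' := by omega
    rw [Fin.addCases_right, Fin.val_natAdd, if_neg e1, if_neg e2, e3]
    simp only [Fin.ext_iff]

private theorem te_iff (I : Input) : isFl I = true ↔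
    I.m = 2 * gN I + I.n ∧
    (∀ a < I.n, gtl I a < gN I ∧ ghd I a < gN I ∧ gtl I a ≠ ghd I a) ∧
    (∀ p < I.m, ∀ a < I.n, gA I p a = gEnt (gN I) (gtl I) (ghd I) p a) ∧
    ∀ v < gN I, gb I (gN I + v) = - gb I v := by
  unfold isFl
  simp only [Bool.and_eq_true, List.all_eq_true, List.mem_range, decide_eq_true_eq, and_assoc]

/-- flow programs pass the test -/
private theorem te_of {I : Input} (h : IsFlow I) : isFl I = true := by
  obtain ⟨N, M, tail, head, b, u, cost, v, hv, hl, hI⟩ := h
  obtain ⟨-, hN, ht, hh, -, -, -, -⟩ := read_flow hl hv hI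
  have ht' : ∀ a : Fin M, gtl I a = tail a := fun a => by
    rw [ht a a.2]
    unfold nf
    rw [dif_pos a.2]
  have hh' : ∀ a : Fin M, ghd I a = head a := fun a => by
    rw [hh a a.2]
    unfold nf
    rw [dif_pos a.2]
  rw [te_iff, hN]
  have hn : I.n = M := by rw [hI]
  have hm : I.m = N + N + M := by rw [hI]
  refine ⟨by omega, fun a ha => ?_, fun p hp a ha => ?_, fun w hw => ?_⟩
  · have h1 := ht' ⟨a, hn ▸ ha⟩
    have h2 := hh' ⟨a, hn ▸ ha⟩
    dsimp only at h1 h2
    refine ⟨?_, ?_, ?_⟩
    · rw [h1]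
      exact Fin.isLt _
    · rw [h2]
      exact Fin.isLt _
    · rw [h1, h2]
      exact fun h => hl _ (Fin.ext h)
  · rw [te_gA I hp ha]
    have h1 := te_ent tail head ht' hh' ⟨p, hm ▸ hp⟩ ⟨a, hn ▸ ha⟩
    dsimp only at h1
    rw [← h1]
    clear h1 ht hh ht' hh' hN
    subst hI
    rfl
  · have h1 : w < I.m := by omega
    have h2 : N + w < I.m := by omega
    rw [te_gb I h1, te_gb I h2]
    clear ht hh ht' hh' hN
    subst hI
    show (Fin.addCases (Fin.addCases b (fun v => - b v)) u : Fin (N + N + M) → ℚ)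
      (Fin.castAdd M (Fin.natAdd N ⟨w, hw⟩)) =
      - (Fin.addCases (Fin.addCases b (fun v => - b v)) u : Fin (N + N + M) → ℚ)
      (Fin.castAdd M (Fin.castAdd N ⟨w, hw⟩))
    simp only [Fin.addCases_left, Fin.addCases_right]

private theorem te_aux {m n N : ℕ} {A : Fin m → Fin n → ℚ} {b : Fin m → ℚ} {c v : Fin n → ℚ}
    (hv : (⟨A, b, c⟩ : QLP m n).Vertex (toReal v)) {tl hd : ℕ → ℕ} (hm : m = N + N + n)
    (h2 : ∀ a < n, tl a < N ∧ hd a < N ∧ tl a ≠ hd a)
    (h3 : ∀ (p : Fin m) (a : Fin n), A p a = gEnt N tl hd p a)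
    (h4 : ∀ p q : Fin m, (p : ℕ) < N → (q : ℕ) = N + p → b q = - b p) :
    IsFlow ⟨m, n, ⟨A, b, c⟩, v, hv⟩ := by
  subst hm
  have hA : A = flowMat (fun a : Fin n => (⟨tl a, (h2 a a.2).1⟩ : Fin N))
      (fun a : Fin n => (⟨hd a, (h2 a a.2).2.1⟩ : Fin N)) := by
    funext p a
    rw [h3 p a]
    exact (te_ent _ _ (fun _ => rfl) (fun _ => rfl) p a).symm
  subst hA
  have hb : b = Fin.addCases (Fin.addCases (fun w => b (Fin.castAdd n (Fin.castAdd N w)))
      (fun w => - b (Fin.castAdd n (Fin.castAdd N w)))) (fun a => b (Fin.natAdd (N + N) a)) := by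
    funext p
    induction p using Fin.addCases with
    | left p =>
      rw [Fin.addCases_left]
      induction p using Fin.addCases with
      | left w => rw [Fin.addCases_left]
      | right w =>
        rw [Fin.addCases_right]
        exact h4 _ _ w.2 rfl
    | right a => rw [Fin.addCases_right]
  exact ⟨N, n, _, _, fun w => b (Fin.castAdd n (Fin.castAdd N w)),
    fun a => b (Fin.natAdd (N + N) a), c, v, by
      unfold flowProgQ
      rw [← hb]
      exact hv, fun a h => (h2 a a.2).2.2 (congrArg Fin.val h), by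
      unfold flowProgQ
      simp only [← hb]⟩

/-- inputs that pass the test are flow programs -/
private theorem te_to {I : Input} (h : isFl I = true) : IsFlow I := by
  rw [te_iff] at h
  obtain ⟨h1, h2, h3, h4⟩ := h
  have h5 : ∀ (p : Fin I.m) (a : Fin I.n),
      I.lp.A p a = gEnt (gN I) (gtl I) (ghd I) p a := fun p a =>
    (te_gA I p.2 a.2).symm.trans (h3 p p.2 a a.2)
  have h6 : ∀ p q : Fin I.m, (p : ℕ) < gN I → (q : ℕ) = gN I + p →
      I.lp.b q = - I.lp.b p := by
    intro p q hp hq
    have e1 := h4 p hp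
    rw [← hq, te_gb I p.2, te_gb I q.2] at e1
    exact e1
  have h7 : I.m = gN I + gN I + I.n := by omega
  generalize gN I = N at h2 h5 h6 h7
  generalize gtl I = tl at h2 h5
  generalize ghd I = hd at h2 h5
  obtain ⟨m, n, ⟨A, b, c⟩, v, hv⟩ := I
  exact te_aux hv h7 h2 h5 h6

theorem isFl_iff (I : Input) : isFl I = true ↔ IsFlow I := ⟨te_to, te_of⟩

/-! ### Polynomial time -/

section

variable {α : Type*} [TEnc α] {I : α → Input} {a v : α → ℕ}

private theorem te_n (hI : PolyF I) : PolyF (fun x => (I x).n) := (polyF_data.comp hI).fst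

private theorem te_rows (hI : PolyF I) : PolyF (fun x => (I x).data.2.1) :=
  (polyF_data.comp hI).snd.fst

private theorem te_m (hI : PolyF I) : PolyF (fun x => (I x).m) :=
  (te_rows hI).length.congr fun x => by
    show (List.ofFn _).length = _
    rw [List.length_ofFn]

private theorem te_N (hI : PolyF I) : PolyF (fun x => gN (I x)) :=
  ((te_m hI).natSub (te_n hI)).natDiv (PolyF.const 2)

private theorem te_polyA (hI : PolyF I) (hv : PolyF v) (ha : PolyF a) :
    PolyF (fun x => gA (I x) (v x) (a x)) :=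
  ((te_rows hI).getDL hv (PolyF.const [])).getDL ha (PolyF.const 0)

private theorem te_tl (hI : PolyF I) (ha : PolyF a) : PolyF (fun x => gtl (I x) (a x)) :=
  ((te_N hI).range.find? (p := fun x v => decide (gA (I x) v (a x) = 1))
    ((te_polyA (hI.comp PolyF.fst') PolyF.snd' (ha.comp PolyF.fst')).eq
      (PolyF.const 1))).getD (PolyF.const 0)

private theorem te_hd (hI : PolyF I) (ha : PolyF a) : PolyF (fun x => ghd (I x) (a x)) :=
  ((te_N hI).range.find? (p := fun x v => decide (gA (I x) v (a x) = -1))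
    ((te_polyA (hI.comp PolyF.fst') PolyF.snd' (ha.comp PolyF.fst')).eq
      (PolyF.const (-1)))).getD (PolyF.const 0)

private theorem te_b (hI : PolyF I) (ha : PolyF a) : PolyF (fun x => gb (I x) (a x)) :=
  (polyF_data.comp hI).snd.snd.fst.getDL ha (PolyF.const 0)

private theorem te_delta {x y : α → ℕ} (hx : PolyF x) (hy : PolyF y) :
    PolyF (fun t => if x t = y t then (1 : ℚ) else 0) :=
  PolyF.ite (hx.natEq hy) (PolyF.const 1) (PolyF.const 0)

private theorem te_polyEnt {p : α → ℕ} (hI : PolyF I) (hp : PolyF p) (ha : PolyF a) :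
    PolyF (fun x => gEnt (gN (I x)) (gtl (I x)) (ghd (I x)) (p x) (a x)) := by
  have h1 := te_N hI
  have h2 := te_tl hI ha
  have h3 := te_hd hI ha
  have h4 : PolyF (fun x => 2 * gN (I x)) := (PolyF.const 2).natMul h1
  exact PolyF.ite (hp.natLt h1) ((te_delta h2 hp).ratSub (te_delta h3 hp))
    (PolyF.ite (hp.natLt h4)
      ((te_delta h2 (hp.natSub h1)).ratSub (te_delta h3 (hp.natSub h1))).ratNeg
      (te_delta (hp.natSub h4) ha))

end

theorem polyF_isFl : PolyF isFl := by
  have hid : PolyF (fun I : Input => I) := PolyF.id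
  have hN := te_N hid
  have hn := te_n hid
  have hm := te_m hid
  have h1 : PolyF (fun I : Input => decide (I.m = 2 * gN I + I.n)) :=
    hm.natEq (((PolyF.const 2).natMul hN).natAdd hn)
  have h2 : PolyF (fun I : Input => (List.range I.n).all fun a =>
      decide (gtl I a < gN I) && decide (ghd I a < gN I) && decide (gtl I a ≠ ghd I a)) := by
    refine hn.range.all (p := fun (I : Input) a =>
      decide (gtl I a < gN I) && decide (ghd I a < gN I) && decide (gtl I a ≠ ghd I a)) ?_
    have g1 : PolyF (fun x : Input × ℕ => x.1) := PolyF.fst'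
    have g2 : PolyF (fun x : Input × ℕ => x.2) := PolyF.snd'
    exact (((te_tl g1 g2).natLt (te_N g1)).and ((te_hd g1 g2).natLt (te_N g1))).and
      ((te_tl g1 g2).natEq (te_hd g1 g2)).decide_not
  have h3 : PolyF (fun I : Input => (List.range I.m).all fun p => (List.range I.n).all fun a =>
      decide (gA I p a = gEnt (gN I) (gtl I) (ghd I) p a)) := by
    refine hm.range.all (p := fun (I : Input) p => (List.range I.n).all fun a =>
      decide (gA I p a = gEnt (gN I) (gtl I) (ghd I) p a)) ?_
    refine (hn.comp PolyF.fst').range.all (p := fun (x : Input × ℕ) a =>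
      decide (gA x.1 x.2 a = gEnt (gN x.1) (gtl x.1) (ghd x.1) x.2 a)) ?_
    have g1 : PolyF (fun x : (Input × ℕ) × ℕ => x.1.1) := PolyF.fst'.comp PolyF.fst'
    have g2 : PolyF (fun x : (Input × ℕ) × ℕ => x.1.2) := PolyF.snd'.comp PolyF.fst'
    have g3 : PolyF (fun x : (Input × ℕ) × ℕ => x.2) := PolyF.snd'
    exact (te_polyA g1 g2 g3).eq (te_polyEnt g1 g2 g3)
  have h4 : PolyF (fun I : Input => (List.range (gN I)).all fun v =>
      decide (gb I (gN I + v) = - gb I v)) := by
    refine hN.range.all (p := fun (I : Input) v => decide (gb I (gN I + v) = - gb I v)) ?_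
    have g1 : PolyF (fun x : Input × ℕ => x.1) := PolyF.fst'
    have g2 : PolyF (fun x : Input × ℕ => x.2) := PolyF.snd'
    exact (te_b g1 ((te_N g1).natAdd g2)).eq (te_b g1 g2).ratNeg
  exact ((h1.and h2).and h3).and h4

end Pool.Agent.Simplex.Flw
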