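import Pool.Agent.Lib.MP_4d246d_lc.Flw.Names
import Pool.Agent.Lib.MP_4d246d_lc.Flw.RedPoly
import Pool.Agent.Lib.MP_4d246d_lc.Flw.Test
import Pool.Agent.Lib.MP_4d246d_lc.EB.OnEngine
import Pool.Agent.Lib.MP_4d246d_lc.EB.Opt3
import Pool.Agent.Lib.MP_4d246d_lc.Net.Fin

/-!
# A blind rule for minimum cost flows
-/

namespace Pool.Agent.Simplex.Flw

open Pool.Agent.Lib.PolyTime Pool.Agent.Simplex.QP Pool.Agent.Simplex.EB Turing

/-- a version of the simplex method for flow programs -/
theorem simplexOn_flow : SimplexOn IsFlow :=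
  SimplexOn.of_red (Q := IsTransport2) (P := IsFlow) redF_two (back := backF)
    (backL := backFL) ofFn_backF polyF_redF polyF_backFL
    (fun _ _ _ _ h => run_of_redF h) Net.simplexOn_two

/-- a blind rule for flow programs -/
theorem blind_flow : ∃ (ρ : BlindRule) (P : Polynomial ℕ), ρ.Poly ∧
    ∀ (N M : ℕ) (tail head : Fin M → Fin N) (b : Fin N → ℝ) (u cost : Fin M → ℝ),
      (∀ a, tail a ≠ head a) → Solves ρ (flowProg tail head b u cost) (P.eval (N + M)) := by
  obtain ⟨E, R, hR⟩ := SimplexOn.engine polyF_isFl isFl_iff simplexOn_flow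
  obtain ⟨ρ, P, hρ, hP⟩ := blind_of_engine_bdd E
  obtain ⟨Q, hQ⟩ := size_flow
  refine ⟨ρ, (P * (R.comp P + 1)).comp Q, hρ.tm2_word,
    fun N M tail head b u cost hl => ?_⟩
  have h1 := hP _ _ (flowProg tail head b u cost)
    (R.eval (P.eval (flowProg tail head b u cost).size))
    flow_bdd fun lp v hv hA hn hs => by
      obtain ⟨y, hy, hn⟩ := hn
      exact (hR _ (isFlow_of_name hl hv hA hy hn)).trans (peval_mono R hs)
  refine h1.mono ?_
  have h2 : P.eval (flowProg tail head b u cost).size *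
      (R.eval (P.eval (flowProg tail head b u cost).size) + 1) =
      (P * (R.comp P + 1)).eval (flowProg tail head b u cost).size := by
    rw [Polynomial.eval_mul, Polynomial.eval_add, Polynomial.eval_comp, Polynomial.eval_one]
  rw [h2, Polynomial.eval_comp]
  exact peval_mono _ (hQ N M tail head b u cost)

/-- **The optimal blind rule is polynomial on minimum cost flow programs.** -/
theorem optimal_flow {U : BlindRule} (hU : Optimal U) : ∃ P : Polynomial ℕ,
    ∀ (N M : ℕ) (tail head : Fin M → Fin N) (b : Fin N → ℝ) (u cost : Fin M → ℝ),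
      (∀ a, tail a ≠ head a) → Solves U (flowProg tail head b u cost) (P.eval (N + M)) := by
  obtain ⟨ρ, P, hρ, hP⟩ := blind_flow
  obtain ⟨Q, hQ⟩ := hU ρ hρ
  obtain ⟨R, hR⟩ := size_flow
  refine ⟨Q.comp (R + P), fun N M tail head b u cost hl =>
    (hQ _ _ _ _ (hP N M tail head b u cost hl)).mono ?_⟩
  rw [Polynomial.eval_comp, Polynomial.eval_add]
  exact peval_mono Q (Nat.add_le_add_right (hR N M tail head b u cost) _)

end Pool.Agent.Simplex.Flw
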