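import Pool.Agent.Lib.MP_4d246d_lc.Flw.Def
import Pool.Agent.Lib.MP_4d246d_lc.Net.LPa
import Pool.Agent.Lib.MP_4d246d_lc.EB.PIso

/-!
# Flows as tables

The flow `x` is the `M × N × 2` table: in row `a` (an arc), column `v` (a node), layers `0`, `1`:
`(x_a, u_a - x_a)` if `v` is the head of `a`, `(u_a - x_a, x_a)` if `v` is the tail, `(0, 0)`
otherwise. Line sums: `(a, v, ·)`: `u_a` if `v` is an end of `a`, otherwise `0`; `(a, ·, k)`:
`u_a`; `(·, v, 0)`: `∑_{tail a = v} u_a - b_v`; `(·, v, 1)`: `∑_{head a = v} u_a + b_v`. These line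
sums determine the tables that come from flows. The objective is `cost_a` at `(a, head a, 0)`.
-/

namespace Pool.Agent.Simplex.Flw

open Pool.Agent.Lib.PolyTime Pool.Agent.Simplex.QP Pool.Agent.Simplex.EB Turing

variable {N M : ℕ}

/-- row (arc) of an entry -/
def fa (N q : ℕ) : ℕ := q / 2 / N

/-- column (node) of an entry -/
def fv (N q : ℕ) : ℕ := q / 2 % N

/-- the coefficient of `x_a` in the entry `q` of row `a`: `tl`, `hd` are the numbers of the ends -/
def fcoef (N : ℕ) (tl hd : ℕ → ℕ) (q : ℕ) : ℤ :=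
  if fv N q = hd (fa N q) then (if q % 2 = 0 then 1 else -1)
  else if fv N q = tl (fa N q) then (if q % 2 = 0 then -1 else 1)
  else 0

/-- whether `u_a` is added -/
def foff (N : ℕ) (tl hd : ℕ → ℕ) (q : ℕ) : ℤ :=
  if fv N q = hd (fa N q) then (if q % 2 = 0 then 0 else 1)
  else if fv N q = tl (fa N q) then (if q % 2 = 0 then 1 else 0)
  else 0

/-- the entry of the table of a flow -/
def fent {G : Type*} [AddCommGroup G] (N : ℕ) (tl hd : ℕ → ℕ) (u x : ℕ → G) (q : ℕ) : G :=
  fcoef N tl hd q • x (fa N q) + foff N tl hd q • u (fa N q)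

/-- the line sums -/
def fline {G : Type*} [AddCommGroup G] (N M : ℕ) (tl hd : ℕ → ℕ) (b u : ℕ → G) (p : ℕ) : G :=
  if p < M * N then (if p % N = tl (p / N) ∨ p % N = hd (p / N) then u (p / N) else 0)
  else if p < M * N + 2 * N then
    (if (p - M * N) % 2 = 0
      then (∑ a ∈ Finset.range M, if tl a = (p - M * N) / 2 then u a else 0) -
        b ((p - M * N) / 2)
      else (∑ a ∈ Finset.range M, if hd a = (p - M * N) / 2 then u a else 0) +
        b ((p - M * N) / 2))
  else u ((p - M * N - 2 * N) / 2)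

/-- the objective of the table -/
def fcost {G : Type*} [Zero G] (N : ℕ) (hd : ℕ → ℕ) (cost : ℕ → G) (q : ℕ) : G :=
  if fv N q = hd (fa N q) ∧ q % 2 = 0 then cost (fa N q) else 0

/-- a vector as a function on the natural numbers -/
def nx {G : Type*} [Zero G] {n : ℕ} (y : Fin n → G) (q : ℕ) : G :=
  if h : q < n then y ⟨q, h⟩ else 0

/-- the numbers of the tails or heads -/
def nf {N n : ℕ} (f : Fin n → Fin N) (q : ℕ) : ℕ := if h : q < n then f ⟨q, h⟩ else 0

/-- the table program of a flow program (rational data) -/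
def flowTab (tail head : Fin M → Fin N) (b : Fin N → ℚ) (u cost : Fin M → ℚ) :
    QLP (lines2 M N + lines2 M N) (2 * (M * N)) :=
  transportQ2 M N (fun p => fline N M (nf tail) (nf head) (nx b) (nx u) p)
    (fun q => fcost N (nf head) (nx cost) q)

/-! ### Indices and line sums -/

theorem nx_lt {G : Type*} [Zero G] {n : ℕ} (y : Fin n → G) {q : ℕ} (h : q < n) :
    nx y q = y ⟨q, h⟩ := by
  unfold nx
  rw [dif_pos h]

theorem nx_fin {G : Type*} [Zero G] {n : ℕ} (y : Fin n → G) (q : Fin n) : nx y q = y q :=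
  nx_lt y q.2

theorem nf_lt {n : ℕ} (f : Fin n → Fin N) {q : ℕ} (h : q < n) : nf f q = f ⟨q, h⟩ := by
  unfold nf
  rw [dif_pos h]

theorem nf_fin {n : ℕ} (f : Fin n → Fin N) (q : Fin n) : nf f q = f q := nf_lt f q.2

theorem cast_nx {n : ℕ} (y : Fin n → ℚ) (q : ℕ) : ((nx y q : ℚ) : ℝ) = nx (toReal y) q := by
  unfold nx toReal
  split_ifs
  · rfl
  · exact Rat.cast_zero

/-- the index of an entry -/
def ix2 (N a v k : ℕ) : ℕ := 2 * (a * N + v) + k

theorem ix2_div {a v k : ℕ} (hv : v < N) (hk : k < 2) :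
    fa N (ix2 N a v k) = a ∧ fv N (ix2 N a v k) = v ∧ ix2 N a v k % 2 = k := by
  have h1 : ix2 N a v k / 2 = a * N + v := by
    unfold ix2
    omega
  refine ⟨?_, ?_, ?_⟩
  · unfold fa
    rw [h1, mul_comm, Nat.mul_add_div (by omega), Nat.div_eq_of_lt hv, add_zero]
  · unfold fv
    rw [h1, mul_comm, Nat.mul_add_mod, Nat.mod_eq_of_lt hv]
  · unfold ix2
    omega

theorem row2_lt {a v : ℕ} (ha : a < M) (hv : v < N) : a * N + v < M * N := by
  have h1 : (a + 1) * N ≤ M * N := Nat.mul_le_mul_right _ ha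
  have h2 : (a + 1) * N = a * N + N := by ring
  omega

theorem ix2_lt {a v k : ℕ} (ha : a < M) (hv : v < N) (hk : k < 2) :
    ix2 N a v k < 2 * (M * N) := by
  have h1 := row2_lt ha hv
  unfold ix2
  omega

theorem exists_ix2 {q : ℕ} (hq : q < 2 * (M * N)) :
    ∃ a v k, a < M ∧ v < N ∧ k < 2 ∧ q = ix2 N a v k := by
  obtain ⟨h1, h2, h3⟩ := Net.lpa_q hq
  refine ⟨q / 2 / N, q / 2 % N, q % 2, h2, h3, Nat.mod_lt _ (by norm_num), ?_⟩
  unfold ix2
  have h4 := Nat.div_add_mod (q / 2) N
  have h5 : q / 2 / N * N = N * (q / 2 / N) := mul_comm _ _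
  omega

theorem sum_ix2 (M N : ℕ) (g : ℕ → ℝ) :
    ∑ q ∈ Finset.range (2 * (M * N)), g q =
      ∑ a ∈ Finset.range M, ∑ v ∈ Finset.range N, ∑ k ∈ Finset.range 2, g (ix2 N a v k) := by
  have h1 : ∑ a ∈ Finset.range M, ∑ v ∈ Finset.range N, ∑ k ∈ Finset.range 2,
      g (ix2 N a v k) =
      ∑ z ∈ Finset.range M ×ˢ (Finset.range N ×ˢ Finset.range 2), g (ix2 N z.1 z.2.1 z.2.2) := by
    rw [Finset.sum_product]
    refine Finset.sum_congr rfl fun e _ => ?_
    rw [Finset.sum_product]
  rw [h1]
  symm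
  refine Finset.sum_nbij (fun z => ix2 N z.1 z.2.1 z.2.2) ?_ ?_ ?_ fun _ _ => rfl
  · rintro ⟨e, J, K⟩ hz
    simp only [Finset.mem_product, Finset.mem_range] at hz
    exact Finset.mem_range.2 (ix2_lt hz.1 hz.2.1 hz.2.2)
  · rintro ⟨e, J, K⟩ hz ⟨e', J', K'⟩ hz' heq
    simp only [Finset.coe_product, Set.mem_prod, Finset.mem_coe, Finset.mem_range] at hz hz'
    obtain ⟨h1, h2, h3⟩ := ix2_div (a := e) hz.2.1 hz.2.2
    obtain ⟨h1', h2', h3'⟩ := ix2_div (a := e') hz'.2.1 hz'.2.2
    dsimp only at heq
    rw [heq] at h1 h2 h3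
    simp only [Prod.mk.injEq]
    exact ⟨by omega, by omega, by omega⟩
  · intro q hq
    obtain ⟨e, J, K, he, hJ, hK, rfl⟩ := exists_ix2 (Finset.mem_range.1 (Finset.mem_coe.1 hq))
    refine ⟨(e, J, K), ?_, rfl⟩
    simp only [Finset.coe_product, Set.mem_prod, Finset.mem_coe, Finset.mem_range]
    exact ⟨he, hJ, hK⟩

theorem onLine2_ix2 {p a v k : ℕ} (hv : v < N) (hk : k < 2) :
    OnLine2 M N p (ix2 N a v k) ↔ p = a * N + v ∨ p = M * N + (2 * v + k) ∨
      p = M * N + 2 * N + (2 * a + k) := by
  obtain ⟨h1, h2, h3⟩ := ix2_div (a := a) hv hk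
  unfold fa at h1
  unfold fv at h2
  have h4 : ix2 N a v k / 2 = a * N + v := by
    unfold ix2
    omega
  unfold OnLine2
  rw [h1, h2, h3, h4]

theorem row2_inj {a v a' v' : ℕ} (hv : v < N) (hv' : v' < N)
    (h : a * N + v = a' * N + v') : a = a' ∧ v = v' := by
  have h1 : (a * N + v) / N = a := by
    rw [mul_comm, Nat.mul_add_div (by omega), Nat.div_eq_of_lt hv, add_zero]
  have h2 : (a' * N + v') / N = a' := by
    rw [mul_comm, Nat.mul_add_div (by omega), Nat.div_eq_of_lt hv', add_zero]
  have h3 : a = a' := by rw [← h1, ← h2, h]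
  subst h3
  exact ⟨rfl, by omega⟩

theorem line2_A {a v : ℕ} (ha : a < M) (hv : v < N) (f : ℕ → ℝ) :
    Net.lineSum M N f (a * N + v) = ∑ k ∈ Finset.range 2, f (ix2 N a v k) := by
  unfold Net.lineSum
  rw [sum_ix2, Finset.sum_eq_single a, Finset.sum_eq_single v]
  · refine Finset.sum_congr rfl fun K hK => ?_
    rw [if_pos ((onLine2_ix2 hv (Finset.mem_range.1 hK)).2 (Or.inl rfl))]
  · intro J' hJ' hne
    refine Finset.sum_eq_zero fun K hK => ?_
    rw [if_neg]
    rw [onLine2_ix2 (Finset.mem_range.1 hJ') (Finset.mem_range.1 hK)]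
    have h1 := row2_lt ha hv
    rintro (h | h | h)
    · exact hne (row2_inj hv (Finset.mem_range.1 hJ') h).2.symm
    · omega
    · omega
  · intro h
    exact absurd (Finset.mem_range.2 hv) h
  · intro e' he' hne
    refine Finset.sum_eq_zero fun J' hJ' => Finset.sum_eq_zero fun K hK => ?_
    rw [if_neg]
    rw [onLine2_ix2 (Finset.mem_range.1 hJ') (Finset.mem_range.1 hK)]
    have h1 := row2_lt ha hv
    rintro (h | h | h)
    · exact hne (row2_inj hv (Finset.mem_range.1 hJ') h).1.symm
    · omega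
    · omega
  · intro h
    exact absurd (Finset.mem_range.2 ha) h

theorem line2_B {v k : ℕ} (hv : v < N) (hk : k < 2) (f : ℕ → ℝ) :
    Net.lineSum M N f (M * N + (2 * v + k)) = ∑ a ∈ Finset.range M, f (ix2 N a v k) := by
  unfold Net.lineSum
  rw [sum_ix2]
  refine Finset.sum_congr rfl fun e he => ?_
  have he' := Finset.mem_range.1 he
  rw [Finset.sum_eq_single v, Finset.sum_eq_single k]
  · rw [if_pos ((onLine2_ix2 hv hk).2 (Or.inr (Or.inl rfl)))]
  · intro K' hK' hne
    have hK3 := Finset.mem_range.1 hK'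
    rw [if_neg]
    rw [onLine2_ix2 hv hK3]
    have h1 := row2_lt he' hv
    rintro (h | h | h)
    · omega
    · omega
    · omega
  · intro h
    exact absurd (Finset.mem_range.2 hk) h
  · intro J' hJ' hne
    have hJ3 := Finset.mem_range.1 hJ'
    refine Finset.sum_eq_zero fun K' hK' => ?_
    have hK3 := Finset.mem_range.1 hK'
    rw [if_neg]
    rw [onLine2_ix2 hJ3 hK3]
    have h1 := row2_lt he' hJ3
    rintro (h | h | h)
    · omega
    · omega
    · omega
  · intro h
    exact absurd (Finset.mem_range.2 hv) h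

theorem line2_C {a k : ℕ} (ha : a < M) (hk : k < 2) (f : ℕ → ℝ) :
    Net.lineSum M N f (M * N + 2 * N + (2 * a + k)) =
      ∑ v ∈ Finset.range N, f (ix2 N a v k) := by
  unfold Net.lineSum
  rw [sum_ix2, Finset.sum_eq_single a]
  · refine Finset.sum_congr rfl fun J hJ => ?_
    have hJ3 := Finset.mem_range.1 hJ
    rw [Finset.sum_eq_single k]
    · rw [if_pos ((onLine2_ix2 hJ3 hk).2 (Or.inr (Or.inr rfl)))]
    · intro K' hK' hne
      have hK3 := Finset.mem_range.1 hK'
      rw [if_neg]
      rw [onLine2_ix2 hJ3 hK3]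
      have h1 := row2_lt ha hJ3
      rintro (h | h | h)
      · omega
      · omega
      · omega
    · intro h
      exact absurd (Finset.mem_range.2 hk) h
  · intro e' he' hne
    have he3 := Finset.mem_range.1 he'
    refine Finset.sum_eq_zero fun J' hJ' => Finset.sum_eq_zero fun K' hK' => ?_
    have hJ3 := Finset.mem_range.1 hJ'
    have hK3 := Finset.mem_range.1 hK'
    rw [if_neg]
    rw [onLine2_ix2 hJ3 hK3]
    have h1 := row2_lt he3 hJ3
    rintro (h | h | h)
    · omega
    · omega
    · omega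
  · intro h
    exact absurd (Finset.mem_range.2 ha) h

/-- all lines -/
theorem forall_lines2 {Q : ℕ → Prop} : (∀ p < lines2 M N, Q p) ↔
    (∀ a < M, ∀ v < N, Q (a * N + v)) ∧ (∀ v < N, ∀ k < 2, Q (M * N + (2 * v + k))) ∧
      ∀ a < M, ∀ k < 2, Q (M * N + 2 * N + (2 * a + k)) := by
  constructor
  · intro h
    refine ⟨fun e he J hJ => h _ ?_, fun J hJ K hK => h _ ?_, fun e he K hK => h _ ?_⟩
    · have h1 := row2_lt he hJ
      unfold lines2
      omega
    · unfold lines2
      omega
    · unfold lines2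
      omega
  · rintro ⟨hA, hB, hC⟩ p hp
    unfold lines2 at hp
    rcases lt_or_ge p (M * N) with h1 | h1
    · have hc : 0 < N := by
        rcases Nat.eq_zero_or_pos N with h | h
        · subst h
          simp at h1
        · exact h
      have h2 := hA (p / N) ((Nat.div_lt_iff_lt_mul hc).2 h1) (p % N) (Nat.mod_lt _ hc)
      have h3 : p / N * N + p % N = p := by
        rw [mul_comm]
        exact Nat.div_add_mod p N
      rwa [h3] at h2
    · rcases lt_or_ge p (M * N + 2 * N) with h4 | h4
      · have h5 := hB ((p - M * N) / 2) (by omega) ((p - M * N) % 2) (by omega)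
        have h6 : M * N + (2 * ((p - M * N) / 2) + (p - M * N) % 2) = p := by omega
        rwa [h6] at h5
      · have h5 := hC ((p - (M * N + 2 * N)) / 2) (by omega) ((p - (M * N + 2 * N)) % 2)
          (by omega)
        have h6 : M * N + 2 * N + (2 * ((p - (M * N + 2 * N)) / 2) +
            (p - (M * N + 2 * N)) % 2) = p := by omega
        rwa [h6] at h5

/-! ### Values -/

theorem fent_ix2 {G : Type*} [AddCommGroup G] {tl hd : ℕ → ℕ} (u x : ℕ → G) {a v k : ℕ}
    (hv : v < N) (hk : k < 2) : fent N tl hd u x (ix2 N a v k) =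
      if v = hd a then (if k = 0 then x a else u a - x a)
      else if v = tl a then (if k = 0 then u a - x a else x a) else 0 := by
  obtain ⟨h1, h2, h3⟩ := ix2_div (a := a) hv hk
  unfold fent fcoef foff
  rw [h1, h2, h3]
  split_ifs
  · rw [one_smul, zero_smul, add_zero]
  · rw [neg_smul, one_smul, one_smul]
    abel
  · rw [neg_smul, one_smul, one_smul]
    abel
  · rw [one_smul, zero_smul, add_zero]
  · rw [zero_smul, zero_smul, add_zero]

theorem fline_A {G : Type*} [AddCommGroup G] {tl hd : ℕ → ℕ} (b u : ℕ → G) {a v : ℕ}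
    (ha : a < M) (hv : v < N) : fline N M tl hd b u (a * N + v) =
      if v = tl a ∨ v = hd a then u a else 0 := by
  have h1 : (a * N + v) / N = a := by
    rw [mul_comm, Nat.mul_add_div (by omega), Nat.div_eq_of_lt hv, add_zero]
  have h2 : (a * N + v) % N = v := by
    rw [mul_comm, Nat.mul_add_mod, Nat.mod_eq_of_lt hv]
  unfold fline
  rw [if_pos (row2_lt ha hv), h1, h2]

theorem fline_B {G : Type*} [AddCommGroup G] {tl hd : ℕ → ℕ} (b u : ℕ → G) {v k : ℕ}
    (hv : v < N) (hk : k < 2) : fline N M tl hd b u (M * N + (2 * v + k)) =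
      if k = 0 then (∑ a ∈ Finset.range M, if tl a = v then u a else 0) - b v
      else (∑ a ∈ Finset.range M, if hd a = v then u a else 0) + b v := by
  have h1 : M * N + (2 * v + k) - M * N = 2 * v + k := by omega
  have h2 : (2 * v + k) / 2 = v := by omega
  have h3 : (2 * v + k) % 2 = k := by omega
  unfold fline
  rw [if_neg (by omega), if_pos (by omega), h1, h2, h3]

theorem fline_C {G : Type*} [AddCommGroup G] {tl hd : ℕ → ℕ} (b u : ℕ → G) {a k : ℕ}
    (hk : k < 2) : fline N M tl hd b u (M * N + 2 * N + (2 * a + k)) = u a := by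
  have h1 : (M * N + 2 * N + (2 * a + k) - M * N - 2 * N) / 2 = a := by omega
  unfold fline
  rw [if_neg (by omega), if_neg (by omega), h1]

theorem cast_fline (N M : ℕ) (tl hd : ℕ → ℕ) (b u : ℕ → ℚ) (p : ℕ) :
    ((fline N M tl hd b u p : ℚ) : ℝ) =
      fline N M tl hd (fun v => (b v : ℝ)) (fun a => (u a : ℝ)) p := by
  unfold fline
  split_ifs
  · rfl
  · exact Rat.cast_zero
  · rw [Rat.cast_sub, Rat.cast_sum]
    congr 1
    refine Finset.sum_congr rfl fun a _ => ?_
    split_ifs
    · rfl
    · exact Rat.cast_zero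
  · rw [Rat.cast_add, Rat.cast_sum]
    congr 1
    refine Finset.sum_congr rfl fun a _ => ?_
    split_ifs
    · rfl
    · exact Rat.cast_zero
  · rfl

/-! ### The tables with the line sums of the flow program -/

/-- outflow minus inflow -/
def fdiv (M : ℕ) (tl hd : ℕ → ℕ) (x : ℕ → ℝ) (v : ℕ) : ℝ :=
  ∑ a ∈ Finset.range M, ((if tl a = v then x a else 0) - (if hd a = v then x a else 0))

/-- the line sums of the table of a flow -/
theorem line_fent {tl hd : ℕ → ℕ} (htl : ∀ a < M, tl a < N) (hhd : ∀ a < M, hd a < N)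
    (hl : ∀ a < M, tl a ≠ hd a) {b u x : ℕ → ℝ} (hx : ∀ v < N, fdiv M tl hd x v = b v) :
    ∀ p < lines2 M N, Net.lineSum M N (fent N tl hd u x) p = fline N M tl hd b u p := by
  rw [forall_lines2 (Q := fun p => Net.lineSum M N (fent N tl hd u x) p =
    fline N M tl hd b u p)]
  refine ⟨fun a ha v hv => ?_, fun v hv k hk => ?_, fun a ha k hk => ?_⟩
  · rw [line2_A ha hv, fline_A b u ha hv, Finset.sum_range_succ, Finset.sum_range_one,
      fent_ix2 u x hv (by norm_num), fent_ix2 u x hv (by norm_num)]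
    by_cases h1 : v = hd a
    · rw [if_pos h1, if_pos h1, if_pos rfl, if_neg one_ne_zero, if_pos (Or.inr h1)]
      ring
    · rw [if_neg h1, if_neg h1]
      by_cases h2 : v = tl a
      · rw [if_pos h2, if_pos h2, if_pos rfl, if_neg one_ne_zero, if_pos (Or.inl h2)]
        ring
      · rw [if_neg h2, if_neg h2, if_neg (by tauto), add_zero]
  · rw [line2_B hv hk, fline_B b u hv hk, ← hx v hv]
    unfold fdiv
    have h1 : ∀ a ∈ Finset.range M, fent N tl hd u x (ix2 N a v k) =
        if k = 0 then (if tl a = v then u a else 0) -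
          ((if tl a = v then x a else 0) - (if hd a = v then x a else 0))
        else (if hd a = v then u a else 0) +
          ((if tl a = v then x a else 0) - (if hd a = v then x a else 0)) := by
      intro a ha
      have h2 := hl a (Finset.mem_range.1 ha)
      rw [fent_ix2 u x hv hk]
      by_cases h3 : v = hd a
      · have h4 : ¬ tl a = v := fun h => h2 (h.trans h3)
        rw [if_pos h3, if_neg h4, if_neg h4, if_pos h3.symm, if_pos h3.symm]
        split_ifs <;> ring
      · have h3' : ¬ hd a = v := fun h => h3 h.symm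
        rw [if_neg h3, if_neg h3', if_neg h3']
        by_cases h5 : v = tl a
        · rw [if_pos h5, if_pos h5.symm, if_pos h5.symm]
          split_ifs <;> ring
        · have h5' : ¬ tl a = v := fun h => h5 h.symm
          rw [if_neg h5, if_neg h5', if_neg h5']
          split_ifs <;> ring
    rw [Finset.sum_congr rfl h1]
    by_cases hk0 : k = 0
    · simp only [if_pos hk0]
      rw [Finset.sum_sub_distrib]
    · simp only [if_neg hk0]
      rw [Finset.sum_add_distrib]
  · rw [line2_C ha hk, fline_C b u hk]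
    have h1 : ∀ v ∈ Finset.range N, fent N tl hd u x (ix2 N a v k) =
        (if v = hd a then (if k = 0 then x a else u a - x a) else 0) +
          (if v = tl a then (if k = 0 then u a - x a else x a) else 0) := by
      intro v hv
      rw [fent_ix2 u x (Finset.mem_range.1 hv) hk]
      by_cases h3 : v = hd a
      · have h4 : ¬ v = tl a := fun h => hl a ha (h.symm.trans h3)
        rw [if_pos h3, if_pos h3, if_neg h4, add_zero]
      · rw [if_neg h3, if_neg h3, zero_add]
    rw [Finset.sum_congr rfl h1, Finset.sum_add_distrib, Finset.sum_ite_eq', Finset.sum_ite_eq',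
      if_pos (Finset.mem_range.2 (hhd a ha)), if_pos (Finset.mem_range.2 (htl a ha))]
    split_ifs <;> ring

/-- nonnegative tables with these line sums come from flows -/
theorem fent_of_line {tl hd : ℕ → ℕ} (htl : ∀ a < M, tl a < N) (hhd : ∀ a < M, hd a < N)
    (hl : ∀ a < M, tl a ≠ hd a) {b u y : ℕ → ℝ} (hy : ∀ q < 2 * (M * N), 0 ≤ y q)
    (h : ∀ p < lines2 M N, Net.lineSum M N y p = fline N M tl hd b u p) :
    ∃ x : ℕ → ℝ, (∀ q < 2 * (M * N), y q = fent N tl hd u x q) ∧
      (∀ a < M, 0 ≤ x a ∧ x a ≤ u a) ∧ ∀ v < N, fdiv M tl hd x v = b v := by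
  have h' := h
  rw [forall_lines2 (Q := fun p => Net.lineSum M N y p = fline N M tl hd b u p)] at h'
  obtain ⟨hA, hB, hC⟩ := h'
  have hA' : ∀ a < M, ∀ v < N, y (ix2 N a v 0) + y (ix2 N a v 1) =
      if v = tl a ∨ v = hd a then u a else 0 := by
    intro a ha v hv
    have h1 := hA a ha v hv
    rw [line2_A ha hv, fline_A b u ha hv, Finset.sum_range_succ, Finset.sum_range_one] at h1
    exact h1
  have hz : ∀ a < M, ∀ v < N, v ≠ tl a → v ≠ hd a → ∀ k < 2, y (ix2 N a v k) = 0 := by
    intro a ha v hv h1 h2 k hk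
    have h3 := hA' a ha v hv
    rw [if_neg (by tauto)] at h3
    have h4 := hy _ (ix2_lt (k := 0) ha hv (by norm_num))
    have h5 := hy _ (ix2_lt (k := 1) ha hv (by norm_num))
    interval_cases k <;> linarith
  have hrow : ∀ a < M, ∀ k < 2, y (ix2 N a (hd a) k) + y (ix2 N a (tl a) k) = u a := by
    intro a ha k hk
    have h1 := hC a ha k hk
    rw [line2_C ha hk, fline_C b u hk] at h1
    rw [← h1, ← Finset.sum_pair (hl a ha).symm (f := fun v => y (ix2 N a v k))]
    refine Finset.sum_subset ?_ fun v hv hn => ?_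
    · intro v hv
      simp only [Finset.mem_insert, Finset.mem_singleton] at hv
      rw [Finset.mem_range]
      rcases hv with rfl | rfl
      · exact hhd a ha
      · exact htl a ha
    · simp only [Finset.mem_insert, Finset.mem_singleton, not_or] at hn
      exact hz a ha v (Finset.mem_range.1 hv) hn.2 hn.1 k hk
  set x : ℕ → ℝ := fun a => y (ix2 N a (hd a) 0) with hx
  have hfent : ∀ q < 2 * (M * N), y q = fent N tl hd u x q := by
    intro q hq
    obtain ⟨a, v, k, ha, hv, hk, rfl⟩ := exists_ix2 hq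
    rw [fent_ix2 u x hv hk]
    have e1 := hA' a ha (hd a) (hhd a ha)
    rw [if_pos (Or.inr rfl)] at e1
    have e2 := hrow a ha 0 (by norm_num)
    have e3 := hrow a ha 1 (by norm_num)
    by_cases h1 : v = hd a
    · subst h1
      rw [if_pos rfl]
      interval_cases k
      · rfl
      · show y (ix2 N a (hd a) 1) = u a - y (ix2 N a (hd a) 0)
        linarith
    · rw [if_neg h1]
      by_cases h2 : v = tl a
      · subst h2
        rw [if_pos rfl]
        interval_cases k
        · show y (ix2 N a (tl a) 0) = u a - y (ix2 N a (hd a) 0)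
          linarith
        · show y (ix2 N a (tl a) 1) = y (ix2 N a (hd a) 0)
          linarith
      · rw [if_neg h2]
        exact hz a ha v hv h2 h1 k hk
  refine ⟨x, hfent, fun a ha => ⟨hy _ (ix2_lt ha (hhd a ha) (by norm_num)), ?_⟩, fun v hv => ?_⟩
  · have e1 := hA' a ha (hd a) (hhd a ha)
    rw [if_pos (Or.inr rfl)] at e1
    have e2 := hy _ (ix2_lt (k := 1) ha (hhd a ha) (by norm_num))
    show y (ix2 N a (hd a) 0) ≤ u a
    linarith
  · have h1 := line_fent htl hhd hl (b := fdiv M tl hd x) (u := u) (x := x) (fun _ _ => rfl)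
      (M * N + (2 * v + 0)) (by unfold lines2; omega)
    have h2 := hB v hv 0 (by norm_num)
    have h3 : Net.lineSum M N y (M * N + (2 * v + 0)) =
        Net.lineSum M N (fent N tl hd u x) (M * N + (2 * v + 0)) := by
      unfold Net.lineSum
      refine Finset.sum_congr rfl fun q hq => ?_
      rw [hfent q (Finset.mem_range.1 hq)]
    rw [h3, h1, fline_B _ u hv (by norm_num), fline_B _ u hv (by norm_num), if_pos rfl,
      if_pos rfl] at h2
    linarith

/-! ### The isomorphism -/

/-- the feasible flows -/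
theorem flow_feasible {tail head : Fin M → Fin N} {b : Fin N → ℚ} {u cost : Fin M → ℚ}
    {x : Fin M → ℝ} : x ∈ (flowProgQ tail head b u cost).feasible ↔
      (∀ a, 0 ≤ x a ∧ x a ≤ u a) ∧ ∀ v < N, fdiv M (nf tail) (nf head) (nx x) v =
        nx (toReal b) v := by
  have hrow : ∀ v : Fin N, ∑ a, ((inc tail head v a : ℚ) : ℝ) * x a =
      fdiv M (nf tail) (nf head) (nx x) v := by
    intro v
    unfold fdiv
    rw [Finset.sum_range]
    refine Finset.sum_congr rfl fun a _ => ?_
    rw [nf_fin, nf_fin, nx_fin]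
    unfold inc
    simp only [Fin.ext_iff]
    split_ifs <;> simp
  have e1 : ∀ v : Fin N, ∑ a, ((flowProgQ tail head b u cost).A
      (Fin.castAdd M (Fin.castAdd N v)) a : ℝ) * x a =
        fdiv M (nf tail) (nf head) (nx x) v := by
    intro v
    rw [← hrow]
    refine Finset.sum_congr rfl fun a _ => ?_
    unfold flowProgQ flowMat
    dsimp only
    rw [Fin.addCases_left, Fin.addCases_left]
  have e2 : ∀ v : Fin N, ∑ a, ((flowProgQ tail head b u cost).A
      (Fin.castAdd M (Fin.natAdd N v)) a : ℝ) * x a =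
        - fdiv M (nf tail) (nf head) (nx x) v := by
    intro v
    rw [← hrow, ← Finset.sum_neg_distrib]
    refine Finset.sum_congr rfl fun a _ => ?_
    unfold flowProgQ flowMat
    dsimp only
    rw [Fin.addCases_left, Fin.addCases_right, Rat.cast_neg, neg_mul]
  have e3 : ∀ a' : Fin M, ∑ a, ((flowProgQ tail head b u cost).A
      (Fin.natAdd (N + N) a') a : ℝ) * x a = x a' := by
    intro a'
    rw [Finset.sum_eq_single a']
    · unfold flowProgQ flowMat
      dsimp only
      rw [Fin.addCases_right, if_pos rfl, Rat.cast_one, one_mul]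
    · intro a _ ha
      unfold flowProgQ flowMat
      dsimp only
      rw [Fin.addCases_right, if_neg (Ne.symm ha), Rat.cast_zero, zero_mul]
    · intro h
      exact absurd (Finset.mem_univ _) h
  have f1 : ∀ v : Fin N, (flowProgQ tail head b u cost).b
      (Fin.castAdd M (Fin.castAdd N v)) = b v := by
    intro v
    unfold flowProgQ
    dsimp only
    rw [Fin.addCases_left, Fin.addCases_left]
  have f2 : ∀ v : Fin N, (flowProgQ tail head b u cost).b
      (Fin.castAdd M (Fin.natAdd N v)) = - b v := by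
    intro v
    unfold flowProgQ
    dsimp only
    rw [Fin.addCases_left, Fin.addCases_right]
  have f3 : ∀ a : Fin M, (flowProgQ tail head b u cost).b (Fin.natAdd (N + N) a) = u a := by
    intro a
    unfold flowProgQ
    dsimp only
    rw [Fin.addCases_right]
  constructor
  · rintro ⟨h1, h2⟩
    refine ⟨fun a => ⟨h2 a, ?_⟩, fun v hv => ?_⟩
    · have h3 := h1 (Fin.natAdd (N + N) a)
      rw [e3, f3] at h3
      exact h3
    · have h3 := h1 (Fin.castAdd M (Fin.castAdd N ⟨v, hv⟩))
      have h4 := h1 (Fin.castAdd M (Fin.natAdd N ⟨v, hv⟩))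
      rw [e1, f1] at h3
      rw [e2, f2, Rat.cast_neg] at h4
      dsimp only at h3 h4
      rw [nx_lt _ hv]
      show _ = ((b ⟨v, hv⟩ : ℚ) : ℝ)
      linarith
  · rintro ⟨h1, h2⟩
    refine ⟨fun i => ?_, fun a => (h1 a).1⟩
    induction i using Fin.addCases with
    | left i =>
      induction i using Fin.addCases with
      | left v =>
        rw [e1, f1, h2 v v.2, nx_fin]
        exact le_rfl
      | right v =>
        rw [e2, f2, h2 v v.2, nx_fin, Rat.cast_neg]
        exact le_rfl
    | right a =>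
      rw [e3, f3]
      exact (h1 a).2

/-- the isomorphism, with its values -/
theorem flowIso (tail head : Fin M → Fin N) (hl : ∀ a, tail a ≠ head a) (b : Fin N → ℚ)
    (u cost : Fin M → ℚ) :
    ∃ e : PIso (ofQ (flowProgQ tail head b u cost)) (ofQ (flowTab tail head b u cost)),
      ∀ (x : Fin M → ℝ) (q : Fin (2 * (M * N))),
        e.map x q = fent N (nf tail) (nf head) (nx (toReal u)) (nx x) q := by
  have htl : ∀ a < M, nf tail a < N := fun a ha => by
    rw [nf_lt tail ha]
    exact (tail ⟨a, ha⟩).2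
  have hhd : ∀ a < M, nf head a < N := fun a ha => by
    rw [nf_lt head ha]
    exact (head ⟨a, ha⟩).2
  have hl' : ∀ a < M, nf tail a ≠ nf head a := fun a ha h => by
    rw [nf_lt tail ha, nf_lt head ha] at h
    exact hl _ (Fin.ext h)
  have hfa : ∀ q < 2 * (M * N), fa N q < M := fun q hq => (Net.lpa_q hq).2.1
  have hcast : ∀ p : ℕ, ((fline N M (nf tail) (nf head) (nx b) (nx u) p : ℚ) : ℝ) =
      fline N M (nf tail) (nf head) (nx (toReal b)) (nx (toReal u)) p := by
    intro p
    rw [cast_fline]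
    congr 1
    · funext v
      exact cast_nx b v
    · funext a
      exact cast_nx u a
  have hextlt : ∀ (y : ℕ → ℝ) (q : ℕ), q < 2 * (M * N) →
      Net.ext (fun q : Fin (2 * (M * N)) => y q) q = y q := by
    intro y q hq
    unfold Net.ext
    rw [dif_pos hq]
  have hline : ∀ (y : ℕ → ℝ) (p : ℕ),
      Net.lineSum M N (Net.ext (fun q : Fin (2 * (M * N)) => y q)) p =
        Net.lineSum M N y p := by
    intro y p
    unfold Net.lineSum
    refine Finset.sum_congr rfl fun q hq => ?_
    rw [hextlt y q (Finset.mem_range.1 hq)]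
  refine ⟨{
    L := {
      toFun := fun x q => fcoef N (nf tail) (nf head) q • nx x (fa N q)
      map_add' := ?_
      map_smul' := ?_ }
    a := fun q => foff N (nf tail) (nf head) q • nx (toReal u) (fa N q)
    inj := ?_
    feas := ?_
    κ := 1
    pos := one_pos
    β := 0
    obj := ?_ }, fun x q => rfl⟩
  · intro x y
    funext q
    show _ = fcoef N (nf tail) (nf head) q • nx x (fa N q) +
      fcoef N (nf tail) (nf head) q • nx y (fa N q)
    rw [nx_lt _ (hfa q q.2), nx_lt _ (hfa q q.2), nx_lt _ (hfa q q.2), ← smul_add]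
    rfl
  · intro t x
    funext q
    show _ = t • (fcoef N (nf tail) (nf head) q • nx x (fa N q))
    rw [nx_lt _ (hfa q q.2), nx_lt _ (hfa q q.2), smul_comm t]
    rfl
  · intro x y hxy
    funext j
    have hlt : ix2 N j (nf head j) 0 < 2 * (M * N) := ix2_lt j.2 (hhd j j.2) (by norm_num)
    obtain ⟨g1, g2, g3⟩ := ix2_div (a := (j : ℕ)) (k := 0) (hhd j j.2) (by norm_num)
    have h1 := congrFun hxy ⟨ix2 N j (nf head j) 0, hlt⟩
    have h2 : fcoef N (nf tail) (nf head) (ix2 N j (nf head j) 0) = 1 := by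
      unfold fcoef
      rw [g1, g2, g3, if_pos rfl, if_pos rfl]
    have h3 : fcoef N (nf tail) (nf head) (ix2 N j (nf head j) 0) •
        nx x (fa N (ix2 N j (nf head j) 0)) =
        fcoef N (nf tail) (nf head) (ix2 N j (nf head j) 0) •
          nx y (fa N (ix2 N j (nf head j) 0)) := h1
    rw [h2, g1, one_smul, one_smul, nx_fin, nx_fin] at h3
    exact h3
  · ext z
    constructor
    · intro hz
      have hz1 : z ∈ (flowTab tail head b u cost).feasible := hz
      set z' : ℕ → ℝ := Net.ext z with hz'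
      have hzz : z = fun q : Fin (2 * (M * N)) => z' q := by
        funext q
        exact (Net.ext_val z q).symm
      obtain ⟨h1, h2⟩ := Net.mem_feasible_iff.1 hz1
      obtain ⟨x, hx1, hx2, hx3⟩ := fent_of_line htl hhd hl' (b := nx (toReal b))
        (u := nx (toReal u)) (y := z') (fun q hq => by
          show 0 ≤ Net.ext z q
          unfold Net.ext
          rw [dif_pos hq]
          exact h1 _) (fun p hp => by
          rw [← hcast]
          exact h2 ⟨p, hp⟩)
      have hnx : ∀ a < M, nx (fun j : Fin M => x j) a = x a := fun a ha => nx_lt _ ha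
      refine ⟨fun j => x j, flow_feasible.2 ⟨fun a => ?_, fun v hv => ?_⟩, ?_⟩
      · have h3 := hx2 a a.2
        rw [nx_fin] at h3
        exact h3
      · rw [← hx3 v hv]
        unfold fdiv
        refine Finset.sum_congr rfl fun a ha => ?_
        rw [hnx a (Finset.mem_range.1 ha)]
      · rw [hzz]
        funext q
        rw [hx1 q q.2]
        show fcoef N (nf tail) (nf head) q • nx (fun j : Fin M => x j) (fa N q) +
          foff N (nf tail) (nf head) q • nx (toReal u) (fa N q) = _
        rw [hnx _ (hfa q q.2)]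
        rfl
    · rintro ⟨x, hx, rfl⟩
      obtain ⟨h1, h2⟩ := flow_feasible.1 (show x ∈ (flowProgQ tail head b u cost).feasible from hx)
      show (fun q : Fin (2 * (M * N)) => fent N (nf tail) (nf head) (nx (toReal u)) (nx x) q) ∈
        (flowTab tail head b u cost).feasible
      refine Net.mem_feasible_iff.2 ⟨fun q => ?_, fun p => ?_⟩
      · obtain ⟨a, v, k, ha, hv, hk, hq⟩ := exists_ix2 q.2
        rw [hq, fent_ix2 _ _ hv hk, nx_lt _ ha, nx_lt _ ha]
        have h3 := h1 ⟨a, ha⟩
        have h4 : toReal u ⟨a, ha⟩ = (u ⟨a, ha⟩ : ℝ) := rfl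
        rw [h4]
        split_ifs
        · exact h3.1
        · linarith [h3.2]
        · linarith [h3.2]
        · exact h3.1
        · exact le_rfl
      · rw [hline, hcast]
        exact line_fent htl hhd hl' h2 p p.2
  · intro x
    rw [one_mul, add_zero]
    show (ofQ (flowTab tail head b u cost)).obj (fun q : Fin (2 * (M * N)) =>
      fent N (nf tail) (nf head) (nx (toReal u)) (nx x) q) = _
    unfold RLP.obj
    have h1 : ∀ q : Fin (2 * (M * N)), (ofQ (flowTab tail head b u cost)).c q =
        ((fcost N (nf head) (nx cost) q : ℚ) : ℝ) := fun _ => rfl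
    have h2 : ∀ a : Fin M, (ofQ (flowProgQ tail head b u cost)).c a = ((cost a : ℚ) : ℝ) :=
      fun _ => rfl
    simp only [h1, h2]
    rw [← Finset.sum_range (fun q => ((fcost N (nf head) (nx cost) q : ℚ) : ℝ) *
      fent N (nf tail) (nf head) (nx (toReal u)) (nx x) q), sum_ix2, Finset.sum_range]
    refine Finset.sum_congr rfl fun a _ => ?_
    rw [Finset.sum_eq_single (nf head a)]
    · rw [Finset.sum_range_succ, Finset.sum_range_one]
      obtain ⟨g1, g2, g3⟩ := ix2_div (a := (a : ℕ)) (k := 0) (hhd a a.2) (by norm_num)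
      obtain ⟨k1, k2, k3⟩ := ix2_div (a := (a : ℕ)) (k := 1) (hhd a a.2) (by norm_num)
      rw [fent_ix2 _ _ (hhd a a.2) (by norm_num)]
      unfold fcost
      rw [g1, g2, g3, k1, k2, k3, if_pos rfl, if_pos rfl, if_pos ⟨rfl, rfl⟩,
        if_neg (by rintro ⟨-, h⟩; exact one_ne_zero h), Rat.cast_zero, zero_mul, add_zero,
        nx_fin, nx_fin]
    · intro v hv hne
      refine Finset.sum_eq_zero fun k hk => ?_
      obtain ⟨g1, g2, g3⟩ := ix2_div (a := (a : ℕ)) (Finset.mem_range.1 hv)
        (Finset.mem_range.1 hk)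
      unfold fcost
      rw [g1, g2, g3, if_neg (by rintro ⟨h, -⟩; exact hne h), Rat.cast_zero, zero_mul]
    · intro h
      exact absurd (Finset.mem_range.2 (hhd a a.2)) h

end Pool.Agent.Simplex.Flw
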