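import Pool.Agent.Lib.MP_4d246d_lc.Flw.Def
import Pool.Agent.Lib.MP_4d246d_lc.EB.BFin
import Pool.Agent.Lib.MP_4d246d_lc.EB.SpSize

/-!
# Flow programs: bounded, tight rows, names
(pattern: `EB/TwoFin.lean`, `EB/SlimQ.lean`)
-/

namespace Pool.Agent.Simplex.Flw

open Pool.Agent.Lib.PolyTime Pool.Agent.Simplex.QP Pool.Agent.Simplex.EB Turing

variable {N M : ℕ} {tail head : Fin M → Fin N} {b : Fin N → ℝ} {u cost : Fin M → ℝ}

/-! ### The rows of the matrix -/

private theorem nm_left (v : Fin N) (a : Fin M) :
    flowMat tail head (Fin.castAdd M (Fin.castAdd N v)) a = inc tail head v a := by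
  unfold flowMat
  rw [Fin.addCases_left, Fin.addCases_left]

private theorem nm_mid (v : Fin N) (a : Fin M) :
    flowMat tail head (Fin.castAdd M (Fin.natAdd N v)) a = - inc tail head v a := by
  unfold flowMat
  rw [Fin.addCases_left, Fin.addCases_right]

private theorem nm_right (a' a : Fin M) :
    flowMat tail head (Fin.natAdd (N + N) a') a = if a' = a then 1 else 0 := by
  unfold flowMat
  rw [Fin.addCases_right]

private theorem nm_b_left (v : Fin N) :
    (flowProg tail head b u cost).b (Fin.castAdd M (Fin.castAdd N v)) = b v := by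
  unfold flowProg
  dsimp only
  rw [Fin.addCases_left, Fin.addCases_left]

private theorem nm_b_mid (v : Fin N) :
    (flowProg tail head b u cost).b (Fin.castAdd M (Fin.natAdd N v)) = - b v := by
  unfold flowProg
  dsimp only
  rw [Fin.addCases_left, Fin.addCases_right]

private theorem nm_A : (flowProg tail head b u cost).A = flowMat tail head := rfl

/-- flows are bounded: the last `M` rows -/
theorem flow_bdd : Bdd (flowProg tail head b u cost).A := by
  refine ⟨Fin.addCases (fun _ => 0) (fun _ => 1), fun i => ?_, fun j => ?_⟩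
  · induction i using Fin.addCases with
    | left i =>
      dsimp only
      rw [Fin.addCases_left]
    | right i =>
      dsimp only
      rw [Fin.addCases_right]
      exact zero_le_one
  · rw [nm_A, Fin.sum_univ_add]
    simp only [Fin.addCases_left, Fin.addCases_right, zero_mul, one_mul, Finset.sum_const_zero,
      zero_add, nm_right, Finset.sum_ite_eq', Finset.mem_univ, if_true]
    exact zero_lt_one

/-- the first `2 N` rows are tight at all feasible points -/
theorem flow_tight {y : Fin M → ℝ} (hy : y ∈ (flowProg tail head b u cost).feasible)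
    (i : Fin (N + N)) :
    ∑ j, ((flowProg tail head b u cost).A (Fin.castAdd M i) j : ℝ) * y j =
      (flowProg tail head b u cost).b (Fin.castAdd M i) := by
  have e3 : ∀ v : Fin N,
      ∑ j, ((flowProg tail head b u cost).A (Fin.castAdd M (Fin.natAdd N v)) j : ℝ) * y j =
        - ∑ j, ((flowProg tail head b u cost).A (Fin.castAdd M (Fin.castAdd N v)) j : ℝ) *
          y j := by
    intro v
    rw [← Finset.sum_neg_distrib]
    refine Finset.sum_congr rfl fun j _ => ?_
    rw [nm_A, nm_left, nm_mid, Rat.cast_neg, neg_mul]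
  have e4 : ∀ v : Fin N,
      ∑ j, ((flowProg tail head b u cost).A (Fin.castAdd M (Fin.castAdd N v)) j : ℝ) * y j =
        (flowProg tail head b u cost).b (Fin.castAdd M (Fin.castAdd N v)) := by
    intro v
    refine le_antisymm (hy.1 _) ?_
    have h1 := hy.1 (Fin.castAdd M (Fin.natAdd N v))
    rw [nm_b_mid, e3] at h1
    rw [nm_b_left]
    linarith
  induction i using Fin.addCases with
  | left v => exact e4 v
  | right v => rw [nm_b_mid, e3, e4, nm_b_left]

/-- a rational program with the same matrix and a vertex with the name of a vertex is a flow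
program -/
theorem isFlow_of_name (hl : ∀ a, tail a ≠ head a) {lp : QLP (N + N + M) M} {v : Fin M → ℚ}
    (hv : lp.Vertex (toReal v)) (hA : lp.A = (flowProg tail head b u cost).A) {y : Fin M → ℝ}
    (hy : (flowProg tail head b u cost).Vertex y)
    (hn : (ofQ lp).name (toReal v) = (flowProg tail head b u cost).name y) :
    IsFlow ⟨_, _, lp, v, hv⟩ := by
  classical
  have h1 : ∀ i : Fin (N + N), ∑ j, (lp.A (Fin.castAdd M i) j : ℝ) * toReal v j =
      (lp.b (Fin.castAdd M i) : ℝ) := by
    unfold RLP.name at hn
    have h2 := (List.append_inj hn (by rw [List.length_ofFn, List.length_ofFn])).1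
    have h3 := List.ofFn_injective h2
    intro i
    have h4 := congrFun h3 (Fin.castAdd M i)
    rw [decide_eq_decide] at h4
    exact h4.2 (flow_tight hy.1 i)
  have h2 : ∀ p : Fin N, lp.b (Fin.castAdd M (Fin.natAdd N p)) =
      - lp.b (Fin.castAdd M (Fin.castAdd N p)) := by
    intro p
    have h3 := h1 (Fin.natAdd N p)
    have h4 := h1 (Fin.castAdd N p)
    have h5 : ∑ j, (lp.A (Fin.castAdd M (Fin.natAdd N p)) j : ℝ) * toReal v j =
        - ∑ j, (lp.A (Fin.castAdd M (Fin.castAdd N p)) j : ℝ) * toReal v j := by
      rw [← Finset.sum_neg_distrib]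
      refine Finset.sum_congr rfl fun j _ => ?_
      have h6 : lp.A (Fin.castAdd M (Fin.natAdd N p)) j =
          - lp.A (Fin.castAdd M (Fin.castAdd N p)) j := by
        rw [hA, nm_A, nm_left, nm_mid]
      rw [h6, Rat.cast_neg, neg_mul]
    rw [h5, h4] at h3
    exact_mod_cast h3.symm
  have h3 : lp = flowProgQ tail head (fun p => lp.b (Fin.castAdd M (Fin.castAdd N p)))
      (fun a => lp.b (Fin.natAdd (N + N) a)) lp.c := by
    obtain ⟨A, b', cc⟩ := lp
    dsimp only at hA h2
    unfold flowProgQ
    congr 1
    funext i
    induction i using Fin.addCases with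
    | left i =>
      rw [Fin.addCases_left]
      induction i using Fin.addCases with
      | left p => rw [Fin.addCases_left]
      | right p => rw [Fin.addCases_right, h2]
    | right a => rw [Fin.addCases_right]
  refine ⟨N, M, tail, head, fun p => lp.b (Fin.castAdd M (Fin.castAdd N p)),
    fun a => lp.b (Fin.natAdd (N + N) a), lp.c, v, h3 ▸ hv, hl, ?_⟩
  congr 1

private theorem nm_inc (v : Fin N) (a : Fin M) :
    inc tail head v a = 0 ∨ inc tail head v a = 1 ∨ inc tail head v a = -1 := by
  unfold inc
  split_ifs <;> norm_num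

private theorem nm_entry (i : Fin (N + N + M)) (a : Fin M) :
    flowMat tail head i a = 0 ∨ flowMat tail head i a = 1 ∨ flowMat tail head i a = -1 := by
  induction i using Fin.addCases with
  | left i =>
    induction i using Fin.addCases with
    | left v =>
      rw [nm_left]
      exact nm_inc v a
    | right v =>
      rw [nm_mid]
      rcases nm_inc (tail := tail) (head := head) v a with h | h | h
      · rw [h]; norm_num
      · rw [h]; norm_num
      · rw [h]; norm_num
  | right a' =>
    rw [nm_right]
    split_ifs <;> norm_num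

/-- the size of the matrix -/
theorem size_flow : ∃ P : Polynomial ℕ, ∀ (N M : ℕ) (tail head : Fin M → Fin N)
    (b : Fin N → ℝ) (u cost : Fin M → ℝ),
    (flowProg tail head b u cost).size ≤ P.eval (N + M) := by
  refine ⟨2 * (1 + Polynomial.X + 2 * Polynomial.X * (1 + Polynomial.X * 10)) + 1,
    fun N M tail head b u cost => ?_⟩
  set D := flowProg tail head b u cost with hD
  have h1 : D.size = 2 * sz D.mat + 1 := length_wd _ _ _
  have h2 : sz D.mat = 1 + sz D.mat.1 + sz D.mat.2 := sz_prod D.mat
  have h3 : sz D.mat.1 = M := sz_nat M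
  have h4 : sz D.mat.2 ≤ (N + N + M) * (1 + M * 10) := by
    have h5 : ∀ r ∈ D.mat.2, sz r ≤ M * 10 := by
      intro r hr
      obtain ⟨i, rfl⟩ := List.mem_ofFn.1 hr
      have h6 : ∀ a ∈ List.ofFn (D.A i), sz a ≤ 9 := by
        intro a ha
        obtain ⟨j, rfl⟩ := List.mem_ofFn.1 ha
        exact sz_unit_rat (nm_entry i j)
      have h7 := sz_le_of_forall h6
      rw [List.length_ofFn] at h7
      exact h7.trans (by omega)
    have h8 := sz_le_of_forall h5
    have h9 : D.mat.2.length = N + N + M := List.length_ofFn
    rw [h9] at h8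
    exact h8.trans (by nlinarith)
  simp only [Polynomial.eval_add, Polynomial.eval_mul, Polynomial.eval_X, Polynomial.eval_ofNat,
    Polynomial.eval_one]
  have h5 : (N + N + M) * (1 + M * 10) ≤ 2 * (N + M) * (1 + (N + M) * 10) := by
    refine Nat.mul_le_mul (by omega) (by omega)
  omega

end Pool.Agent.Simplex.Flw
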