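import Pool.Agent.Lib.MP_4d246d_lc.Flw.Iso

/-!
# The reduction of flow programs to tables with two layers
(pattern: `EB/OneDef.lean`)
-/

namespace Pool.Agent.Simplex.Flw

open Pool.Agent.Lib.PolyTime Pool.Agent.Simplex.QP Pool.Agent.Simplex.EB Turing

/-! ### Reading the digraph -/

/-- number of nodes -/
def gN (I : Input) : ℕ := (I.m - I.n) / 2

/-- entry of the matrix -/
def gA (I : Input) (v a : ℕ) : ℚ := (I.data.2.1.getD v []).getD a 0

/-- the tail of an arc -/
def gtl (I : Input) (a : ℕ) : ℕ :=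
  ((List.range (gN I)).find? fun v => decide (gA I v a = 1)).getD 0

/-- the head of an arc -/
def ghd (I : Input) (a : ℕ) : ℕ :=
  ((List.range (gN I)).find? fun v => decide (gA I v a = -1)).getD 0

/-- the supply -/
def gb (I : Input) (v : ℕ) : ℚ := I.data.2.2.1.getD v 0

/-- the capacities -/
def gu (I : Input) (a : ℕ) : ℚ := I.data.2.2.1.getD (2 * gN I + a) 0

/-- the objective -/
def gc (I : Input) (a : ℕ) : ℚ := I.data.2.2.2.1.getD a 0

/-- the vertex -/
def gv (I : Input) (a : ℕ) : ℚ := I.data.2.2.2.2.getD a 0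

/-- the table program -/
def gTab (I : Input) : QLP (lines2 I.n (gN I) + lines2 I.n (gN I)) (2 * (I.n * gN I)) :=
  transportQ2 I.n (gN I) (fun p => fline (gN I) I.n (gtl I) (ghd I) (gb I) (gu I) p)
    (fun q => fcost (gN I) (ghd I) (gc I) q)

/-- the vertex of the table -/
def gV (I : Input) (q : Fin (2 * (I.n * gN I))) : ℚ :=
  fent (gN I) (gtl I) (ghd I) (gu I) (gv I) q

theorem red_getD {α : Type*} {k : ℕ} (f : Fin k → α) (d : α) {i : ℕ} (h : i < k) :
    (List.ofFn f).getD i d = f ⟨i, h⟩ := by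
  rw [List.getD_eq_getElem _ _ (by rw [List.length_ofFn]; exact h), List.getElem_ofFn]

theorem red_getD_nx {k : ℕ} (f : Fin k → ℚ) (i : ℕ) : (List.ofFn f).getD i 0 = nx f i := by
  unfold nx
  split_ifs with h
  · exact red_getD f 0 h
  · rw [List.getD_eq_default _ _ (by rw [List.length_ofFn]; exact not_lt.1 h)]

/-- `find?` for a condition with exactly one solution -/
theorem red_find {N k : ℕ} (hk : k < N) {p : ℕ → Bool} (hp : ∀ v < N, p v = true ↔ v = k) :
    ((List.range N).find? p).getD 0 = k := by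
  cases hf : (List.range N).find? p with
  | none =>
    rw [List.find?_eq_none] at hf
    exact absurd ((hp k hk).2 rfl) (hf k (List.mem_range.2 hk))
  | some v =>
    exact (hp v (List.mem_range.1 (List.mem_of_find?_eq_some hf))).1 (List.find?_some hf)

/-- Everything is read correctly. -/
theorem read_flow {N M : ℕ} {tail head : Fin M → Fin N} (hl : ∀ a, tail a ≠ head a)
    {b : Fin N → ℚ} {u cost v : Fin M → ℚ}
    (hv : (flowProgQ tail head b u cost).Vertex (toReal v)) {I : Input}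
    (hI : I = ⟨_, _, flowProgQ tail head b u cost, v, hv⟩) :
    I.n = M ∧ gN I = N ∧ (∀ a < M, gtl I a = nf tail a) ∧ (∀ a < M, ghd I a = nf head a) ∧
      (∀ w < N, gb I w = nx b w) ∧ (∀ a < M, gu I a = nx u a) ∧
      (∀ a < M, gc I a = nx cost a) ∧ ∀ a < M, gv I a = nx v a := by
  subst hI
  have hN : gN ⟨_, _, flowProgQ tail head b u cost, v, hv⟩ = N := by
    show (N + N + M - M) / 2 = N
    omega
  have hA : ∀ w (hw : w < N) a (ha : a < M), gA ⟨_, _, flowProgQ tail head b u cost, v, hv⟩ w a =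
      inc tail head ⟨w, hw⟩ ⟨a, ha⟩ := by
    intro w hw a ha
    show ((List.ofFn (fun i => List.ofFn (flowMat tail head i))).getD w []).getD a 0 = _
    rw [red_getD _ _ (show w < N + N + M by omega), red_getD _ _ ha]
    have h1 : (⟨w, by omega⟩ : Fin (N + N + M)) = Fin.castAdd M (Fin.castAdd N ⟨w, hw⟩) := rfl
    rw [h1]
    unfold flowMat
    rw [Fin.addCases_left, Fin.addCases_left]
  have hB : ∀ k, (⟨_, _, flowProgQ tail head b u cost, v, hv⟩ : Input).data.2.2.1.getD k 0 =
      nx (Fin.addCases (Fin.addCases b (fun v => - b v)) u : Fin (N + N + M) → ℚ) k :=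
    fun k => red_getD_nx _ k
  refine ⟨rfl, hN, ?_, ?_, ?_, ?_, ?_, ?_⟩
  · intro a ha
    unfold gtl
    rw [hN]
    have h1 : nf tail a = (tail ⟨a, ha⟩ : ℕ) := by
      unfold nf
      rw [dif_pos ha]
    rw [h1]
    refine red_find (tail ⟨a, ha⟩).2 fun w hw => ?_
    rw [decide_eq_true_eq, hA w hw a ha]
    unfold inc
    have h2 := hl ⟨a, ha⟩
    by_cases h3 : tail ⟨a, ha⟩ = ⟨w, hw⟩
    · have h4 : head ⟨a, ha⟩ ≠ ⟨w, hw⟩ := fun h => h2 (h3.trans h.symm)
      rw [if_pos h3, if_neg h4, sub_zero]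
      refine ⟨fun _ => ?_, fun _ => rfl⟩
      rw [h3]
    · rw [if_neg h3]
      constructor
      · intro h4
        exfalso
        split_ifs at h4 <;> norm_num at h4
      · intro h4
        exact absurd (Fin.ext h4.symm) h3
  · intro a ha
    unfold ghd
    rw [hN]
    have h1 : nf head a = (head ⟨a, ha⟩ : ℕ) := by
      unfold nf
      rw [dif_pos ha]
    rw [h1]
    refine red_find (head ⟨a, ha⟩).2 fun w hw => ?_
    rw [decide_eq_true_eq, hA w hw a ha]
    unfold inc
    have h2 := hl ⟨a, ha⟩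
    by_cases h3 : head ⟨a, ha⟩ = ⟨w, hw⟩
    · have h4 : tail ⟨a, ha⟩ ≠ ⟨w, hw⟩ := fun h => h2 (h.trans h3.symm)
      rw [if_pos h3, if_neg h4, zero_sub]
      refine ⟨fun _ => ?_, fun _ => rfl⟩
      rw [h3]
    · rw [if_neg h3]
      constructor
      · intro h4
        exfalso
        split_ifs at h4 <;> norm_num at h4
      · intro h4
        exact absurd (Fin.ext h4.symm) h3
  · intro w hw
    unfold gb
    rw [hB]
    unfold nx
    rw [dif_pos (show w < N + N + M by omega), dif_pos hw]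
    have h1 : (⟨w, by omega⟩ : Fin (N + N + M)) = Fin.castAdd M (Fin.castAdd N ⟨w, hw⟩) := rfl
    rw [h1]
    dsimp only
    rw [Fin.addCases_left, Fin.addCases_left]
  · intro a ha
    unfold gu
    rw [hB, hN]
    unfold nx
    rw [dif_pos (show 2 * N + a < N + N + M by omega), dif_pos ha]
    have h1 : (⟨2 * N + a, by omega⟩ : Fin (N + N + M)) = Fin.natAdd (N + N) ⟨a, ha⟩ :=
      Fin.ext (by
        show 2 * N + a = N + N + a
        omega)
    rw [h1]
    dsimp only
    rw [Fin.addCases_right]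
  · intro a _
    exact red_getD_nx cost a
  · intro a _
    exact red_getD_nx v a

/-! ### The table depends only on the values that are used -/

section

variable {N M : ℕ} {tl tl' hd hd' : ℕ → ℕ} (ht : ∀ a < M, tl a = tl' a)
  (hh : ∀ a < M, hd a = hd' a)

include ht hh

theorem red_fline {G : Type*} [AddCommGroup G] {b b' u u' : ℕ → G} (hb : ∀ w < N, b w = b' w)
    (hu : ∀ a < M, u a = u' a) {p : ℕ} (hp : p < lines2 M N) :
    fline N M tl hd b u p = fline N M tl' hd' b' u' p := by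
  unfold lines2 at hp
  unfold fline
  by_cases h1 : p < M * N
  · have h2 : p / N < M := Nat.div_lt_of_lt_mul (by rw [mul_comm]; exact h1)
    rw [if_pos h1, if_pos h1, ht _ h2, hh _ h2, hu _ h2]
  rw [if_neg h1, if_neg h1]
  by_cases h2 : p < M * N + 2 * N
  · have h3 : (p - M * N) / 2 < N := by omega
    have e1 : ∀ w, (∑ a ∈ Finset.range M, if tl a = w then u a else 0) =
        ∑ a ∈ Finset.range M, if tl' a = w then u' a else 0 := fun w =>
      Finset.sum_congr rfl fun a ha => by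
        rw [ht a (Finset.mem_range.1 ha), hu a (Finset.mem_range.1 ha)]
    have e2 : ∀ w, (∑ a ∈ Finset.range M, if hd a = w then u a else 0) =
        ∑ a ∈ Finset.range M, if hd' a = w then u' a else 0 := fun w =>
      Finset.sum_congr rfl fun a ha => by
        rw [hh a (Finset.mem_range.1 ha), hu a (Finset.mem_range.1 ha)]
    rw [if_pos h2, if_pos h2, e1, e2, hb _ h3]
  · rw [if_neg h2, if_neg h2]
    exact hu _ (by omega)

theorem red_fent {G : Type*} [AddCommGroup G] {u u' x x' : ℕ → G} (hu : ∀ a < M, u a = u' a)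
    (hx : ∀ a < M, x a = x' a) {q : ℕ} (hq : q < 2 * (M * N)) :
    fent N tl hd u x q = fent N tl' hd' u' x' q := by
  have h1 : fa N q < M := by
    unfold fa
    refine Nat.div_lt_of_lt_mul ?_
    rw [mul_comm N M]
    omega
  unfold fent fcoef foff
  rw [ht _ h1, hh _ h1, hu _ h1, hx _ h1]

end

theorem red_fcost {N M : ℕ} {hd hd' : ℕ → ℕ} (hh : ∀ a < M, hd a = hd' a) {G : Type*} [Zero G]
    {c c' : ℕ → G} (hc : ∀ a < M, c a = c' a) {q : ℕ} (hq : q < 2 * (M * N)) :
    fcost N hd c q = fcost N hd' c' q := by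
  have h1 : fa N q < M := by
    unfold fa
    refine Nat.div_lt_of_lt_mul ?_
    rw [mul_comm N M]
    omega
  unfold fcost
  rw [hh _ h1, hc _ h1]

/-- the isomorphism for data that agree with those of the program -/
theorem red_iso {N M N' : ℕ} (hN : N' = N) {tail head : Fin M → Fin N}
    (hl : ∀ a, tail a ≠ head a) {b : Fin N → ℚ} {u cost : Fin M → ℚ} {tl hd : ℕ → ℕ}
    {b' u' c' : ℕ → ℚ} (ht : ∀ a < M, tl a = nf tail a) (hh : ∀ a < M, hd a = nf head a)
    (hb : ∀ w < N, b' w = nx b w) (hu : ∀ a < M, u' a = nx u a)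
    (hc : ∀ a < M, c' a = nx cost a) :
    ∃ e : PIso (ofQ (flowProgQ tail head b u cost))
        (ofQ (transportQ2 M N' (fun p => fline N' M tl hd b' u' p) (fun q => fcost N' hd c' q))),
      ∀ (x : Fin M → ℝ) (q : Fin (2 * (M * N'))),
        e.map x q = fent N' tl hd (fun a => (u' a : ℝ)) (nx x) q := by
  subst hN
  obtain ⟨e, he⟩ := flowIso tail head hl b u cost
  have h1 : flowTab tail head b u cost =
      transportQ2 M N' (fun p => fline N' M tl hd b' u' p) (fun q => fcost N' hd c' q) := by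
    unfold flowTab
    congr 1
    · funext p
      exact (red_fline ht hh hb hu p.2).symm
    · funext q
      exact (red_fcost hh hc q.2).symm
  have h2 : ∀ (x : Fin M → ℝ) (q : Fin (2 * (M * N'))),
      e.map x q = fent N' tl hd (fun a => (u' a : ℝ)) (nx x) q := by
    intro x q
    rw [he]
    refine (red_fent ht hh (fun a ha => ?_) (fun _ _ => rfl) q.2).symm
    rw [hu a ha]
    unfold nx
    rw [dif_pos ha, dif_pos ha]
    rfl
  rw [← h1]
  exact ⟨e, h2⟩

/-- the isomorphism -/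
theorem exists_isoF (I : {I : Input // IsFlow I}) :
    ∃ e : PIso (ofQ I.1.lp) (ofQ (gTab I.1)), ∀ (x : Fin I.1.n → ℝ)
      (q : Fin (2 * (I.1.n * gN I.1))),
      e.map x q = fent (gN I.1) (gtl I.1) (ghd I.1) (fun a => (gu I.1 a : ℝ)) (nx x) q := by
  obtain ⟨I, hI⟩ := I
  obtain ⟨N, M, tail, head, b, u, cost, v, hv, hl, hI⟩ := hI
  obtain ⟨h1, h2, h3, h4, h5, h6, h7, h8⟩ := read_flow hl hv hI
  subst hI
  exact red_iso h2 hl h3 h4 h5 h6 h7

/-- the isomorphism -/
noncomputable def isoF (I : {I : Input // IsFlow I}) : PIso (ofQ I.1.lp) (ofQ (gTab I.1)) :=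
  (exists_isoF I).choose

theorem isoF_map (I : {I : Input // IsFlow I}) (x : Fin I.1.n → ℝ)
    (q : Fin (2 * (I.1.n * gN I.1))) : (isoF I).map x q =
      fent (gN I.1) (gtl I.1) (ghd I.1) (fun a => (gu I.1 a : ℝ)) (nx x) q :=
  (exists_isoF I).choose_spec x q

theorem isoF_v (I : {I : Input // IsFlow I}) :
    (isoF I).map (toReal I.1.v) = toReal (gV I.1) := by
  funext q
  rw [isoF_map]
  have h1 : ∀ a, ((gv I.1 a : ℚ) : ℝ) = nx (toReal I.1.v) a := by
    intro a
    have h2 : gv I.1 a = nx I.1.v a := red_getD_nx I.1.v a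
    rw [h2]
    unfold nx
    split_ifs
    · rfl
    · exact Rat.cast_zero
  show _ = ((fent (gN I.1) (gtl I.1) (ghd I.1) (gu I.1) (gv I.1) q : ℚ) : ℝ)
  unfold fent
  rw [Rat.cast_add, zsmul_eq_mul, zsmul_eq_mul, zsmul_eq_mul, zsmul_eq_mul, Rat.cast_mul,
    Rat.cast_mul, Rat.cast_intCast, Rat.cast_intCast, h1]

/-- the table input -/
def redF (I : {I : Input // IsFlow I}) : Input :=
  ⟨_, _, gTab I.1, gV I.1, by
    rw [← isoF_v I, ← ofQ_vertex]
    exact (isoF I).vertex.2 I.1.vertex⟩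

theorem redF_two (I : {I : Input // IsFlow I}) : IsTransport2 (redF I) :=
  ⟨I.1.n, gN I.1, _, _, gV I.1, (redF I).vertex, rfl⟩

/-- the way back: the entry `(a, head a, 0)` -/
def backF (I : {I : Input // IsFlow I}) (w : Fin (redF I).n → ℚ) (j : Fin I.1.n) : ℚ :=
  nx w (2 * (j * gN I.1 + ghd I.1 j))

theorem ghd_lt (I : {I : Input // IsFlow I}) (j : Fin I.1.n) : ghd I.1 j < gN I.1 := by
  obtain ⟨I, hI⟩ := I
  obtain ⟨N, M, tail, head, b, u, cost, v, hv, hl, hI⟩ := hI
  obtain ⟨h1, h2, h3, h4, h5, h6, h7, h8⟩ := read_flow hl hv hI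
  dsimp only at j ⊢
  have hj : (j : ℕ) < M := by
    rw [← h1]
    exact j.2
  rw [h4 j hj, h2]
  unfold nf
  rw [dif_pos hj]
  exact (head ⟨j, hj⟩).2

theorem backF_map (I : {I : Input // IsFlow I}) (x : Fin I.1.n → ℝ)
    (w : Fin (redF I).n → ℚ) (hw : toReal w = (isoF I).map x) : toReal (backF I w) = x := by
  funext j
  have hlt := ghd_lt I j
  have hjN : (j : ℕ) * gN I.1 + ghd I.1 j < I.1.n * gN I.1 := by
    calc (j : ℕ) * gN I.1 + ghd I.1 j < (j : ℕ) * gN I.1 + gN I.1 := by omega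
      _ = (j + 1) * gN I.1 := by ring
      _ ≤ I.1.n * gN I.1 := Nat.mul_le_mul_right _ j.2
  have hq : 2 * ((j : ℕ) * gN I.1 + ghd I.1 j) < 2 * (I.1.n * gN I.1) := by omega
  have h1 := (congrFun hw ⟨2 * ((j : ℕ) * gN I.1 + ghd I.1 j), hq⟩).trans
    (isoF_map I x ⟨2 * ((j : ℕ) * gN I.1 + ghd I.1 j), hq⟩)
  have h2 : toReal (backF I w) j =
      toReal w ⟨2 * ((j : ℕ) * gN I.1 + ghd I.1 j), hq⟩ := by
    show ((nx w (2 * (j * gN I.1 + ghd I.1 j)) : ℚ) : ℝ) = _
    unfold nx
    have hq' : 2 * ((j : ℕ) * gN I.1 + ghd I.1 j) < (redF I).n := hq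
    rw [dif_pos hq']
    rfl
  rw [h2, h1]
  have hN : 0 < gN I.1 := by omega
  have e1 : fa (gN I.1) (2 * ((j : ℕ) * gN I.1 + ghd I.1 j)) = j := by
    unfold fa
    rw [Nat.mul_div_cancel_left _ two_pos, mul_comm (j : ℕ), Nat.mul_add_div hN,
      Nat.div_eq_of_lt hlt, add_zero]
  have e2 : fv (gN I.1) (2 * ((j : ℕ) * gN I.1 + ghd I.1 j)) = ghd I.1 j := by
    unfold fv
    rw [Nat.mul_div_cancel_left _ two_pos, mul_comm (j : ℕ), Nat.mul_add_mod,
      Nat.mod_eq_of_lt hlt]
  have e3 : 2 * ((j : ℕ) * gN I.1 + ghd I.1 j) % 2 = 0 := by omega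
  unfold fent fcoef foff
  dsimp only
  rw [e1, e2, e3, if_pos rfl, if_pos rfl, if_pos rfl, if_pos rfl, one_smul, zero_smul, add_zero]
  unfold nx
  rw [dif_pos j.2]

/-- runs are carried back -/
theorem run_of_redF {I : {I : Input // IsFlow I}} {N : ℕ} {x : ℕ → Fin (redF I).n → ℚ}
    {s : Verdict} (h : SimplexRun (redF I) N x s) :
    SimplexRun I.1 N (fun t => backF I (x t)) s :=
  run_of_piso (I' := redF I) (isoF I) (isoF_v I).symm (backF_map I) h

end Pool.Agent.Simplex.Flw
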